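import Pool.Agent.X6.VA.Crit

/-!
Agmon's inequality on the torus, and the time integrability of the maximum of the velocity
(Foias, Guillopé, Temam).
-/

open MeasureTheory Set Filter Topology
open scoped ContDiff ENNReal NNReal
open H459R3.NS Pool.Agent.W268.NS

set_option autoImplicit false

namespace Pool.Agent.X6.VA

/-- the weight -/
noncomputable def phi (ρ : ℝ) (m : ℕ) : ℝ := 1 / ((m : ℝ) ^ 2 + ρ ^ 2 * (m : ℝ) ^ 4)

theorem phi_nonneg (ρ : ℝ) (m : ℕ) : 0 ≤ phi ρ m := by unfold phi; positivity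

theorem phi_step {ρ : ℝ} (hρ : 0 < ρ) (m : ℕ) :
    (phi ρ (m + 1) - phi ρ (m + 2)) * (2 * ((m + 1 : ℕ) : ℝ) + 1) ^ 3
      ≤ 810 / ρ * (1 / (1 + ρ * m) - 1 / (1 + ρ * (m + 1 : ℕ))) := by
  obtain ⟨x, hx⟩ : ∃ x : ℝ, x = (m : ℝ) := ⟨_, rfl⟩
  have hx0 : 0 ≤ x := by rw [hx]; positivity
  unfold phi
  push_cast
  rw [← hx]
  obtain ⟨y, hy⟩ : ∃ y : ℝ, y = x + 1 := ⟨_, rfl⟩
  have hy1 : 1 ≤ y := by linarith
  have e1 : x + 2 = y + 1 := by linarith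
  have e2 : x = y - 1 := by linarith
  rw [e1, ← hy, e2]
  have hy0 : 0 < y := by linarith
  -- the difference of the weights
  have d1 : 1 / (y ^ 2 + ρ ^ 2 * y ^ 4) - 1 / ((y + 1) ^ 2 + ρ ^ 2 * (y + 1) ^ 4)
      ≤ 15 / (y ^ 3 * (1 + ρ ^ 2 * y ^ 2)) := by
    have a1 : 0 < y ^ 2 + ρ ^ 2 * y ^ 4 := by positivity
    have a2 : 0 < (y + 1) ^ 2 + ρ ^ 2 * (y + 1) ^ 4 := by positivity
    have a3 : y ^ 2 + ρ ^ 2 * y ^ 4 ≤ (y + 1) ^ 2 + ρ ^ 2 * (y + 1) ^ 4 := by gcongr <;> linarith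
    have a4 : (y + 1) ^ 2 + ρ ^ 2 * (y + 1) ^ 4 - (y ^ 2 + ρ ^ 2 * y ^ 4)
        ≤ 15 * y * (1 + ρ ^ 2 * y ^ 2) := by
      have b1 : (y + 1) ^ 2 - y ^ 2 ≤ 3 * y := by nlinarith
      have b2 : (y + 1) ^ 4 - y ^ 4 ≤ 15 * y ^ 3 := by
        have c1 : y ≤ y ^ 3 := by nlinarith [mul_pos hy0 hy0]
        have c2 : y ^ 2 ≤ y ^ 3 := by nlinarith [mul_pos hy0 hy0]
        have c3 : 1 ≤ y ^ 3 := by nlinarith
        nlinarith
      have b3 : ρ ^ 2 * ((y + 1) ^ 4 - y ^ 4) ≤ ρ ^ 2 * (15 * y ^ 3) := by gcongr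
      nlinarith [sq_nonneg ρ]
    rw [div_sub_div _ _ a1.ne' a2.ne', div_le_div_iff₀ (by positivity) (by positivity)]
    have a5 : y ^ 2 + ρ ^ 2 * y ^ 4 = y ^ 2 * (1 + ρ ^ 2 * y ^ 2) := by ring
    calc (1 * ((y + 1) ^ 2 + ρ ^ 2 * (y + 1) ^ 4) - (y ^ 2 + ρ ^ 2 * y ^ 4) * 1)
          * (y ^ 3 * (1 + ρ ^ 2 * y ^ 2))
        ≤ (15 * y * (1 + ρ ^ 2 * y ^ 2)) * (y ^ 3 * (1 + ρ ^ 2 * y ^ 2)) := by
          gcongr
          linarith
      _ = 15 * ((y ^ 2 + ρ ^ 2 * y ^ 4) * (y ^ 2 + ρ ^ 2 * y ^ 4)) := by rw [a5]; ring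
      _ ≤ 15 * ((y ^ 2 + ρ ^ 2 * y ^ 4) * ((y + 1) ^ 2 + ρ ^ 2 * (y + 1) ^ 4)) := by gcongr
  have d2 : (2 * y + 1) ^ 3 ≤ 27 * y ^ 3 := by
    have : 2 * y + 1 ≤ 3 * y := by linarith
    calc (2 * y + 1) ^ 3 ≤ (3 * y) ^ 3 := by gcongr
      _ = 27 * y ^ 3 := by ring
  have d3 : (1 / (y ^ 2 + ρ ^ 2 * y ^ 4) - 1 / ((y + 1) ^ 2 + ρ ^ 2 * (y + 1) ^ 4))
      * (2 * y + 1) ^ 3 ≤ 15 / (y ^ 3 * (1 + ρ ^ 2 * y ^ 2)) * (27 * y ^ 3) :=
    mul_le_mul d1 d2 (by positivity) (by positivity)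
  have d4 : 15 / (y ^ 3 * (1 + ρ ^ 2 * y ^ 2)) * (27 * y ^ 3) = 405 / (1 + ρ ^ 2 * y ^ 2) := by
    field_simp
    ring
  have d5 : 810 / ρ * (1 / (1 + ρ * (y - 1)) - 1 / (1 + ρ * y))
      = 810 / ((1 + ρ * (y - 1)) * (1 + ρ * y)) := by
    have a1 : 0 < 1 + ρ * (y - 1) := by
      have : 0 ≤ ρ * (y - 1) := mul_nonneg hρ.le (by linarith)
      linarith
    have a2 : 0 < 1 + ρ * y := by positivity
    rw [div_sub_div _ _ a1.ne' a2.ne']
    field_simp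
    ring
  rw [d4] at d3
  rw [d5]
  refine d3.trans ?_
  have a1 : 0 < 1 + ρ * (y - 1) := by
    have : 0 ≤ ρ * (y - 1) := mul_nonneg hρ.le (by linarith)
    linarith
  have a2 : 0 < 1 + ρ * y := by positivity
  rw [div_le_div_iff₀ (by positivity) (by positivity)]
  nlinarith [sq_nonneg (ρ * y - 1), mul_pos hρ hy0, mul_pos a2 hρ]

theorem card_le {F : Finset K3} (m : ℕ) :
    ((F.filter fun k => N k ≤ m).card : ℝ) ≤ (2 * (m : ℝ) + 1) ^ 3 := by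
  have h1 : (F.filter fun k => N k ≤ m) ⊆ Fintype.piFinset fun _ : Fin 3 => Finset.Icc (-(m : ℤ)) m := by
    intro k hk
    rw [Finset.mem_filter, N_le_iff] at hk
    rw [Fintype.mem_piFinset]
    intro j
    rw [Finset.mem_Icc]
    exact abs_le.1 (hk.2 j)
  have h2 := Finset.card_le_card h1
  have h3 : (Fintype.piFinset fun _ : Fin 3 => Finset.Icc (-(m : ℤ)) m).card = (2 * m + 1) ^ 3 := by
    rw [Fintype.card_piFinset_const, Int.card_Icc]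
    congr 1
    omega
  rw [h3] at h2
  exact_mod_cast h2

/-- The sum of the weights over the lattice. -/
theorem sum_phi_le {ρ : ℝ} (hρ : 0 < ρ) (F : Finset K3) (h0 : (0 : K3) ∉ F) :
    ∑ k ∈ F, phi ρ (N k) ≤ 810 / ρ := by
  -- the bound with an error term
  have key : ∀ L : ℕ, (∀ k ∈ F, N k ≤ L) →
      ∑ k ∈ F, phi ρ (N k) ≤ 810 / ρ + F.card * phi ρ (L + 1) := by
    intro L hL
    have h1 : ∀ k ∈ F, phi ρ (N k) = phi ρ (L + 1)
        + ∑ m ∈ Finset.range L, if N k ≤ m + 1 then phi ρ (m + 1) - phi ρ (m + 2) else 0 := by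
      intro k hk
      have hN : 1 ≤ N k := Nat.one_le_iff_ne_zero.2 fun h => h0 (by rw [← N_eq_zero.1 h]; exact hk)
      have hkL := hL k hk
      have e : ∀ n, N k ≤ n + 1 → ∑ m ∈ Finset.range n,
          (if N k ≤ m + 1 then phi ρ (m + 1) - phi ρ (m + 2) else 0)
          = if N k ≤ n then phi ρ (N k) - phi ρ (n + 1) else 0 := by
        intro n
        induction n with
        | zero =>
          intro _
          rw [if_neg (by omega)]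
          simp
        | succ n ih =>
          intro hn
          rw [Finset.sum_range_succ]
          by_cases h : N k ≤ n + 1
          · rw [ih h, if_pos h, if_pos h]
            by_cases h' : N k ≤ n
            · rw [if_pos h']; ring
            · have : N k = n + 1 := by omega
              rw [if_neg h', this]; ring
          · have h2 : N k = n + 2 := by omega
            rw [if_neg h, if_neg h, add_zero]
            refine Finset.sum_eq_zero fun m hm => ?_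
            rw [Finset.mem_range] at hm
            rw [if_neg (by omega)]
      rw [e L (by omega), if_pos hkL]
      ring
    rw [Finset.sum_congr rfl h1, Finset.sum_add_distrib, Finset.sum_const, nsmul_eq_mul,
      Finset.sum_comm, add_comm]
    refine add_le_add_left ?_ _
    have h2 : ∀ m ∈ Finset.range L, ∑ k ∈ F,
        (if N k ≤ m + 1 then phi ρ (m + 1) - phi ρ (m + 2) else 0)
        ≤ 810 / ρ * (1 / (1 + ρ * m) - 1 / (1 + ρ * (m + 1 : ℕ))) := by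
      intro m _
      rw [← Finset.sum_filter, Finset.sum_const, nsmul_eq_mul]
      have h3 : 0 ≤ phi ρ (m + 1) - phi ρ (m + 2) := by
        rw [sub_nonneg]
        unfold phi
        refine one_div_le_one_div_of_le (by positivity) ?_
        push_cast
        gcongr <;> linarith
      have h4 := card_le (F := F) (m + 1)
      calc ((F.filter fun k => N k ≤ m + 1).card : ℝ) * (phi ρ (m + 1) - phi ρ (m + 2))
          ≤ (2 * ((m + 1 : ℕ) : ℝ) + 1) ^ 3 * (phi ρ (m + 1) - phi ρ (m + 2)) :=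
            mul_le_mul_of_nonneg_right h4 h3
        _ = (phi ρ (m + 1) - phi ρ (m + 2)) * (2 * ((m + 1 : ℕ) : ℝ) + 1) ^ 3 := by ring
        _ ≤ _ := phi_step hρ m
    refine (Finset.sum_le_sum h2).trans ?_
    rw [← Finset.mul_sum, Finset.sum_range_sub' (fun m : ℕ => 1 / (1 + ρ * (m : ℝ)))]
    have h5 : 0 ≤ 1 / (1 + ρ * (L : ℝ)) := by positivity
    have h6 : (0 : ℝ) < 810 / ρ := by positivity
    calc 810 / ρ * (1 / (1 + ρ * ((0 : ℕ) : ℝ)) - 1 / (1 + ρ * (L : ℝ)))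
        ≤ 810 / ρ * 1 := by
          refine mul_le_mul_of_nonneg_left ?_ h6.le
          simp only [Nat.cast_zero, mul_zero, add_zero, div_one]
          linarith
      _ = 810 / ρ := mul_one _
  -- the limit
  have hlim : Tendsto (fun L : ℕ => 810 / ρ + F.card * phi ρ (L + 1)) atTop
      (𝓝 (810 / ρ + F.card * 0)) := by
    refine tendsto_const_nhds.add (tendsto_const_nhds.mul ?_)
    have h1 : Tendsto (fun L : ℕ => 1 / ((L : ℝ) + 1)) atTop (𝓝 0) :=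
      tendsto_one_div_add_atTop_nhds_zero_nat
    refine squeeze_zero (fun L => phi_nonneg ρ _) (fun L => ?_) h1
    unfold phi
    refine one_div_le_one_div_of_le (by positivity) ?_
    push_cast
    have : (0 : ℝ) ≤ ρ ^ 2 * ((L : ℝ) + 1) ^ 4 := by positivity
    nlinarith [(Nat.cast_nonneg L : (0 : ℝ) ≤ L)]
  rw [mul_zero, add_zero] at hlim
  refine ge_of_tendsto hlim ?_
  filter_upwards [eventually_ge_atTop (F.sup N)] with L hL
  exact key L fun k hk => (Finset.le_sup (f := N) hk).trans hL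

/-- Agmon's inequality. -/
theorem agmon {f : V → ℝ} (hf : SP f) {g h : ℝ} (hg : 0 < g) (hh : 0 < h) (h1 : grd f ≤ g)
    (h2 : nrm (lap f) ≤ h) (x : V) : |f x| ≤ nrm f + 41 * Real.sqrt (g * h) := by
  have hr := rap_fr hf
  have hl := rap_fr hf.lap
  have h3 : |f x| ≤ ∑' k, ‖fr f k‖ := by
    have := norm_S_le hr.summable x
    rwa [S_fr hf, Complex.norm_real, Real.norm_eq_abs] at this
  refine h3.trans ?_
  have t1 : ‖fr f 0‖ ≤ nrm f := by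
    have a1 : ‖fr f 0‖ ^ 2 ≤ n2 (fr f) ^ 2 := by
      rw [n2_sq]
      exact (summable_sq hr.summable).le_tsum (0 : K3) fun _ _ => sq_nonneg _
    have a2 : n2 (fr f) ^ 2 = nrm f ^ 2 := by rw [n2_fr hf, nrm_sq]
    rw [a2] at a1
    exact (pow_le_pow_iff_left₀ (norm_nonneg _) (nrm_nonneg _) (by norm_num)).1 a1
  refine hr.summable.norm.tsum_le_of_sum_le fun F => ?_
  classical
  have hsplit : ∑ k ∈ F, ‖fr f k‖ ≤ ‖fr f 0‖ + ∑ k ∈ F.erase 0, ‖fr f k‖ := by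
    by_cases h0 : (0 : K3) ∈ F
    · rw [Finset.add_sum_erase F (fun k => ‖fr f k‖) h0]
    · rw [Finset.erase_eq_of_notMem h0]
      linarith [norm_nonneg (fr f 0)]
  refine hsplit.trans (add_le_add t1 ?_)
  set F' := F.erase 0 with hF'
  have h0 : (0 : K3) ∉ F' := Finset.notMem_erase 0 F
  set ρ := g / h with hρ
  have hρ0 : 0 < ρ := div_pos hg hh
  have hNpos : ∀ k ∈ F', (0 : ℝ) < N k := by
    intro k hk
    have : 1 ≤ N k := Nat.one_le_iff_ne_zero.2 fun h => h0 (by rw [← N_eq_zero.1 h]; exact hk)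
    exact_mod_cast this
  have c1 := Finset.sum_mul_sq_le_sq_mul_sq F' (fun k => Real.sqrt (phi ρ (N k)))
    (fun k => Real.sqrt ((N k : ℝ) ^ 2 + ρ ^ 2 * (N k : ℝ) ^ 4) * ‖fr f k‖)
  have c2 : ∑ k ∈ F', Real.sqrt (phi ρ (N k))
      * (Real.sqrt ((N k : ℝ) ^ 2 + ρ ^ 2 * (N k : ℝ) ^ 4) * ‖fr f k‖) = ∑ k ∈ F', ‖fr f k‖ := by
    refine Finset.sum_congr rfl fun k hk => ?_
    have := hNpos k hk
    rw [← mul_assoc, ← Real.sqrt_mul (phi_nonneg _ _)]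
    unfold phi
    rw [one_div, inv_mul_cancel₀ (by positivity), Real.sqrt_one, one_mul]
  have c3 : ∑ k ∈ F', Real.sqrt (phi ρ (N k)) ^ 2 ≤ 810 / ρ := by
    simp_rw [Real.sq_sqrt (phi_nonneg ρ _)]
    exact sum_phi_le hρ0 F' h0
  have hgr : ∑ k ∈ F', (N k : ℝ) ^ 2 * ‖fr f k‖ ^ 2 ≤ g ^ 2 := by
    have e1 : ∑ m, n2 (D m (fr f)) ^ 2 = grd f ^ 2 := by
      rw [grd_sq]
      refine Finset.sum_congr rfl fun j _ => ?_
      rw [← fr_pd hf, n2_fr (hf.pd j)]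
    have e2 : ∀ k, (N k : ℝ) ^ 2 * ‖fr f k‖ ^ 2 ≤ ∑ m, ‖D m (fr f) k‖ ^ 2 := by
      intro k
      have a1 : ∀ m, ‖D m (fr f) k‖ ^ 2 = (2 * Real.pi) ^ 2 * ((k m : ℝ) ^ 2 * ‖fr f k‖ ^ 2) := by
        intro m
        unfold D
        rw [norm_mul, norm_mul, norm_mul, norm_mul, Complex.norm_I, Complex.norm_real,
          Complex.norm_intCast]
        simp only [Complex.norm_ofNat, Real.norm_eq_abs, mul_pow, sq_abs]
        ring
      simp_rw [a1]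
      rw [← Finset.mul_sum, ← Finset.sum_mul]
      have a2 := N_sq_le k
      have a3 : (1 : ℝ) ≤ (2 * Real.pi) ^ 2 := by nlinarith [Real.pi_gt_three]
      have a4 : (0 : ℝ) ≤ ∑ j, (k j : ℝ) ^ 2 := by positivity
      calc (N k : ℝ) ^ 2 * ‖fr f k‖ ^ 2 ≤ (∑ j, (k j : ℝ) ^ 2) * ‖fr f k‖ ^ 2 := by gcongr
        _ = 1 * ((∑ j, (k j : ℝ) ^ 2) * ‖fr f k‖ ^ 2) := by rw [one_mul]
        _ ≤ (2 * Real.pi) ^ 2 * ((∑ j, (k j : ℝ) ^ 2) * ‖fr f k‖ ^ 2) := by gcongr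
    calc ∑ k ∈ F', (N k : ℝ) ^ 2 * ‖fr f k‖ ^ 2 ≤ ∑ k ∈ F', ∑ m, ‖D m (fr f) k‖ ^ 2 :=
          Finset.sum_le_sum fun k _ => e2 k
      _ = ∑ m, ∑ k ∈ F', ‖D m (fr f) k‖ ^ 2 := Finset.sum_comm
      _ ≤ ∑ m, n2 (D m (fr f)) ^ 2 := by
          refine Finset.sum_le_sum fun m _ => ?_
          rw [n2_sq]
          exact (summable_sq (hr.D m).summable).sum_le_tsum F' fun _ _ => sq_nonneg _
      _ = grd f ^ 2 := e1
      _ ≤ g ^ 2 := pow_le_pow_left₀ (grd_nonneg _) h1 2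
  have hla : ∑ k ∈ F', (N k : ℝ) ^ 4 * ‖fr f k‖ ^ 2 ≤ h ^ 2 := by
    have e2 : ∀ k, (N k : ℝ) ^ 4 * ‖fr f k‖ ^ 2 ≤ ‖fr (lap f) k‖ ^ 2 := by
      intro k
      have e1 : fr (lap f) k = -(((2 * Real.pi) ^ 2 * ∑ j, (k j : ℝ) ^ 2 : ℝ) : ℂ) * fr f k := by
        unfold lap
        rw [fr_sum fun j _ => (hf.pd j).pd j]
        push_cast
        rw [Finset.mul_sum, ← Finset.sum_neg_distrib, Finset.sum_mul]
        refine Finset.sum_congr rfl fun j _ => ?_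
        rw [fr_pd (hf.pd j), fr_pd hf, D, D]
        have := Complex.I_sq
        linear_combination ((2 * Real.pi : ℂ) ^ 2 * (k j : ℂ) ^ 2 * fr f k) * this
      have e3 : (N k : ℝ) ^ 2 * ‖fr f k‖ ≤ ‖fr (lap f) k‖ := by
        rw [e1, norm_mul, norm_neg, Complex.norm_real, Real.norm_eq_abs,
          abs_of_nonneg (by positivity)]
        refine mul_le_mul_of_nonneg_right ?_ (norm_nonneg _)
        have a1 := N_sq_le k
        have a2 : (1 : ℝ) ≤ (2 * Real.pi) ^ 2 := by nlinarith [Real.pi_gt_three]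
        have a3 : (0 : ℝ) ≤ ∑ j, (k j : ℝ) ^ 2 := by positivity
        nlinarith
      calc (N k : ℝ) ^ 4 * ‖fr f k‖ ^ 2 = ((N k : ℝ) ^ 2 * ‖fr f k‖) ^ 2 := by ring
        _ ≤ ‖fr (lap f) k‖ ^ 2 := pow_le_pow_left₀ (by positivity) e3 2
    calc ∑ k ∈ F', (N k : ℝ) ^ 4 * ‖fr f k‖ ^ 2 ≤ ∑ k ∈ F', ‖fr (lap f) k‖ ^ 2 :=
          Finset.sum_le_sum fun k _ => e2 k
      _ ≤ n2 (fr (lap f)) ^ 2 := by
          rw [n2_sq]
          exact (summable_sq hl.summable).sum_le_tsum F' fun _ _ => sq_nonneg _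
      _ = nrm (lap f) ^ 2 := by rw [n2_fr hf.lap, nrm_sq]
      _ ≤ h ^ 2 := pow_le_pow_left₀ (nrm_nonneg _) h2 2
  have c4 : ∑ k ∈ F', (Real.sqrt ((N k : ℝ) ^ 2 + ρ ^ 2 * (N k : ℝ) ^ 4) * ‖fr f k‖) ^ 2
      ≤ 2 * g ^ 2 := by
    have e : ∀ k ∈ F', (Real.sqrt ((N k : ℝ) ^ 2 + ρ ^ 2 * (N k : ℝ) ^ 4) * ‖fr f k‖) ^ 2
        = (N k : ℝ) ^ 2 * ‖fr f k‖ ^ 2 + ρ ^ 2 * ((N k : ℝ) ^ 4 * ‖fr f k‖ ^ 2) := by
      intro k _
      rw [mul_pow, Real.sq_sqrt (by positivity)]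
      ring
    rw [Finset.sum_congr rfl e, Finset.sum_add_distrib, ← Finset.mul_sum]
    have a1 : ρ ^ 2 * ∑ k ∈ F', (N k : ℝ) ^ 4 * ‖fr f k‖ ^ 2 ≤ ρ ^ 2 * h ^ 2 := by gcongr
    have a2 : ρ ^ 2 * h ^ 2 = g ^ 2 := by
      rw [hρ]
      field_simp
    linarith
  rw [c2] at c1
  have c5 : (∑ k ∈ F', ‖fr f k‖) ^ 2 ≤ (41 * Real.sqrt (g * h)) ^ 2 := by
    rw [mul_pow, Real.sq_sqrt (by positivity)]
    refine c1.trans ?_
    calc (∑ k ∈ F', Real.sqrt (phi ρ (N k)) ^ 2)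
          * ∑ k ∈ F', (Real.sqrt ((N k : ℝ) ^ 2 + ρ ^ 2 * (N k : ℝ) ^ 4) * ‖fr f k‖) ^ 2
        ≤ 810 / ρ * (2 * g ^ 2) :=
          mul_le_mul c3 c4 (Finset.sum_nonneg fun _ _ => sq_nonneg _) (by positivity)
      _ = 1620 * (g * h) := by
          rw [hρ]
          field_simp
          ring
      _ ≤ 41 ^ 2 * (g * h) := by
          refine mul_le_mul_of_nonneg_right (by norm_num) (by positivity)
  exact (pow_le_pow_iff_left₀ (Finset.sum_nonneg fun _ _ => norm_nonneg _)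
    (by positivity) (by norm_num)).1 c5

end Pool.Agent.X6.VA
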