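import Mathlib

/-!
The integral over a relatively open subset of an interval as the sum over its components.
-/

open MeasureTheory Set Filter Topology

set_option autoImplicit false

namespace Pool.Agent.X6.VA

variable {U : Set ℝ} (hU : IsOpen U)

include hU in
/-- The component of a point of `U` between two points outside `U`. -/
theorem exists_comp {a₀ b₀ x : ℝ} (ha : a₀ ∉ U) (hb : b₀ ∉ U) (hx : x ∈ Ioo a₀ b₀)
    (hxU : x ∈ U) : ∃ a b : ℝ, a₀ ≤ a ∧ a < x ∧ x < b ∧ b ≤ b₀ ∧ a ∉ U ∧ b ∉ U ∧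
      Ioo a b ⊆ U ∧ connectedComponentIn (Ioo a₀ b₀ ∩ U) x = Ioo a b := by
  set S : Set ℝ := Icc a₀ x ∩ Uᶜ with hS
  set S' : Set ℝ := Icc x b₀ ∩ Uᶜ with hS'
  have hSc : IsCompact S := isCompact_Icc.inter_right hU.isClosed_compl
  have hS'c : IsCompact S' := isCompact_Icc.inter_right hU.isClosed_compl
  obtain ⟨a, haS, haM⟩ := hSc.exists_isGreatest ⟨a₀, ⟨le_rfl, hx.1.le⟩, ha⟩
  obtain ⟨b, hbS, hbM⟩ := hS'c.exists_isLeast ⟨b₀, ⟨hx.2.le, le_rfl⟩, hb⟩
  have hax : a < x := lt_of_le_of_ne haS.1.2 fun h => haS.2 (by rw [h]; exact hxU)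
  have hxb : x < b := lt_of_le_of_ne hbS.1.1 fun h => hbS.2 (by rw [← h]; exact hxU)
  have habove : Ioo a b ⊆ U := by
    intro r hr
    by_contra hcon
    rcases le_total r x with h | h
    · exact absurd hr.1 (not_lt.2 (haM ⟨⟨haS.1.1.trans hr.1.le, h⟩, hcon⟩))
    · exact absurd hr.2 (not_lt.2 (hbM ⟨⟨h, hr.2.le.trans hbS.1.2⟩, hcon⟩))
  refine ⟨a, b, haS.1.1, hax, hxb, hbS.1.2, haS.2, hbS.2, habove, ?_⟩
  have hxO : x ∈ Ioo a₀ b₀ ∩ U := ⟨hx, hxU⟩
  refine Subset.antisymm ?_ ?_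
  · intro y hy
    have hord := (isPreconnected_connectedComponentIn (x := x)
      (F := Ioo a₀ b₀ ∩ U)).ordConnected
    have hxm : x ∈ connectedComponentIn (Ioo a₀ b₀ ∩ U) x := mem_connectedComponentIn hxO
    have hsub := connectedComponentIn_subset (Ioo a₀ b₀ ∩ U) x
    constructor
    · by_contra hcon
      exact haS.2 (hsub (hord.out hy hxm ⟨not_lt.1 hcon, hax.le⟩)).2
    · by_contra hcon
      exact hbS.2 (hsub (hord.out hxm hy ⟨hxb.le, not_lt.1 hcon⟩)).2
  · refine isPreconnected_Ioo.subset_connectedComponentIn ⟨hax, hxb⟩ fun r hr => ⟨⟨?_, ?_⟩, ?_⟩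
    · exact haS.1.1.trans_lt hr.1
    · exact hr.2.trans_le hbS.1.2
    · exact habove hr

include hU in
/-- If the integral over each maximal interval contained in `U` is not positive, then so is the
integral over `U`. -/
theorem int_above {a₀ b₀ : ℝ} (ha : a₀ ∉ U) (hb : b₀ ∉ U) {k : ℝ → ℝ}
    (hk : IntegrableOn k (Ioo a₀ b₀))
    (H : ∀ a b : ℝ, a₀ ≤ a → a < b → b ≤ b₀ → a ∉ U → b ∉ U → Ioo a b ⊆ U →
      ∫ r in Ioo a b, k r ≤ 0) :
    ∫ r in Ioo a₀ b₀ ∩ U, k r ≤ 0 := by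
  set O : Set ℝ := Ioo a₀ b₀ ∩ U with hO
  have hOo : IsOpen O := isOpen_Ioo.inter hU
  set S : Set (Set ℝ) := (fun x => connectedComponentIn O x) '' O with hS
  have hdisj : S.PairwiseDisjoint id := by
    rintro _ ⟨x, hx, rfl⟩ _ ⟨y, hy, rfl⟩ hne
    rw [Function.onFun, Set.disjoint_left]
    intro z hz1 hz2
    exact hne ((connectedComponentIn_eq hz1).trans (connectedComponentIn_eq hz2).symm)
  have hopen : ∀ s ∈ S, IsOpen s := by
    rintro _ ⟨x, _, rfl⟩
    exact hOo.connectedComponentIn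
  have hne : ∀ s ∈ S, s.Nonempty := by
    rintro _ ⟨x, hx, rfl⟩
    exact ⟨x, mem_connectedComponentIn hx⟩
  have hcount : S.Countable := hdisj.countable_of_isOpen hopen hne
  have hunion : O = ⋃ s : S, (s : Set ℝ) := by
    ext x
    constructor
    · intro hx
      exact mem_iUnion.2 ⟨⟨connectedComponentIn O x, x, hx, rfl⟩, mem_connectedComponentIn hx⟩
    · intro hx
      obtain ⟨⟨_, y, hy, rfl⟩, hs⟩ := mem_iUnion.1 hx
      exact connectedComponentIn_subset _ _ hs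
  have : Countable S := hcount.to_subtype
  have hsum := integral_iUnion (μ := volume) (f := k) (s := fun s : S => (s : Set ℝ))
    (fun s => (hopen s s.2).measurableSet)
    (fun s t hst => hdisj s.2 t.2 fun h => hst (Subtype.ext h))
    (by rw [← hunion]; exact hk.mono_set inter_subset_left)
  rw [hunion, hsum]
  refine tsum_nonpos ?_
  rintro ⟨_, x, hx, rfl⟩
  obtain ⟨a, b, h1, h2, h3, h4, h5, h6, h7, h8⟩ := exists_comp hU ha hb hx.1 hx.2
  show ∫ r in connectedComponentIn O x, k r ≤ 0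
  rw [hO, h8]
  exact H a b h1 (h2.trans h3) h4 h5 h6 h7

end Pool.Agent.X6.VA
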