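import Pool.Agent.X6.VA.Erg
import Pool.Agent.X6.VA.Comp

/-!
Excursions of the orbits of a volume preserving flow into an open set: if the integral of a function
over each finite excursion is not positive, and the lower mean over each infinite one is not
positive, then the integral over the open set is not positive.
-/

open MeasureTheory Set Filter Topology
open scoped ContDiff ENNReal NNReal
open H459R3.NS Pool.Agent.W268.NS Pool.Agent.GR.Flow Pool.Agent.TH811.SPD

set_option autoImplicit false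

namespace Pool.Agent.X6.VA

/-- The integral of `G` over each maximal finite arc of `X` in `Ω` is not positive, and if `X` stays
in `Ω`, then the infimum of the means of `G` over the arcs which start at `X 0` is not positive. -/
def ArcsIn (Ω : Set V) (G : V → ℝ) (X : ℝ → V) : Prop :=
  (∀ a b : ℝ, a < b → X a ∉ Ω → X b ∉ Ω → (∀ r ∈ Ioo a b, X r ∈ Ω) →
    ∫ r in Ioo a b, G (X r) ≤ 0) ∧
  ((∀ r : ℝ, X r ∈ Ω) → ∀ ε : ℝ, 0 < ε → ∃ τ : ℝ, 0 < τ ∧ ∫ r in Ioo 0 τ, G (X r) ≤ ε * τ)

section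

variable {v : V → V} (hv : ∀ i, SP (fun y => v y i))
  (hdiv : ∀ x, ∑ i, pd i (fun y => v y i) x = 0) {g : ℝ → V → V} (hg : IsFlowOf v g)
  {Ω : Set V} (hΩo : IsOpen Ω) (hΩp : ∀ (i : Fin 3) (x : V), x + Pi.single i 1 ∈ Ω ↔ x ∈ Ω)

/-- The points whose forward orbits stay in `Ω`. -/
def Stay (g : ℝ → V → V) (Ω : Set V) : Set V := {x | ∀ r : ℝ, 0 ≤ r → g r x ∈ Ω}

include hv hg hΩo in
theorem stay_meas : MeasurableSet (Stay g Ω) := by
  have h1 : (Stay g Ω)ᶜ = ⋃ N : ℕ, Prod.snd '' {p : (Icc (0 : ℝ) N) × V | g p.1 p.2 ∈ Ωᶜ} := by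
    ext x
    simp only [Stay, mem_compl_iff, mem_ofPred_eq, not_forall, mem_iUnion, mem_image,
      Prod.exists, exists_eq_right, Subtype.exists, mem_Icc]
    constructor
    · rintro ⟨r, hr, hle⟩
      obtain ⟨N, hN⟩ := exists_nat_ge r
      exact ⟨N, r, ⟨hr, hN⟩, hle⟩
    · rintro ⟨N, r, hr, hle⟩
      exact ⟨r, hr.1, hle⟩
  have h2 : MeasurableSet (Stay g Ω)ᶜ := by
    rw [h1]
    refine MeasurableSet.iUnion fun N => IsClosed.measurableSet ?_
    refine isClosedMap_snd_of_compactSpace _ ?_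
    refine hΩo.isClosed_compl.preimage ?_
    exact (flow_smooth hv hg).continuous.comp
      ((continuous_subtype_val.comp continuous_fst).prodMk continuous_snd)
  exact MeasurableSet.of_compl h2

include hv hg hΩp in
theorem stay_per (i : Fin 3) (x : V) : x + Pi.single i 1 ∈ Stay g Ω ↔ x ∈ Stay g Ω := by
  unfold Stay
  simp only [mem_ofPred_eq, flow_per hv hg, hΩp i _]

theorem ind_per {A : Set V} (hA : ∀ (i : Fin 3) (x : V), x + Pi.single i 1 ∈ A ↔ x ∈ A) :
    Per (A.indicator fun _ => (1 : ℝ≥0∞)) := by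
  intro i x
  by_cases hx : x ∈ A
  · rw [indicator_of_mem hx, indicator_of_mem ((hA i x).2 hx)]
  · rw [indicator_of_notMem hx, indicator_of_notMem fun h => hx ((hA i x).1 h)]

include hv hdiv hg hΩo hΩp in
/-- Recurrence: almost every orbit which stays in `Ω` from some time on has always been in it. -/
theorem rec_ae : ∀ᵐ x ∂(volume.restrict cube), ∀ n : ℕ,
    (∀ r : ℝ, n ≤ r → g r x ∈ Ω) → ∀ r : ℝ, g r x ∈ Ω := by
  have hBm := stay_meas hv hg hΩo
  have hBp := stay_per hv hg hΩp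
  set B := Stay g Ω with hB
  have hkm : Measurable (B.indicator fun _ => (1 : ℝ≥0∞)) := measurable_const.indicator hBm
  have hkp := ind_per hBp
  -- backward invariance
  have h1 : ∀ n : ℕ, ∀ᵐ x ∂(volume.restrict cube), x ∈ B → g (-(n : ℝ)) x ∈ B := by
    intro n
    have h2 := lintegral_flow hv hdiv hg hkm hkp (-(n : ℝ))
    have hle : ∀ x, B.indicator (fun _ => (1 : ℝ≥0∞)) (g (-(n : ℝ)) x)
        ≤ B.indicator (fun _ => (1 : ℝ≥0∞)) x := by
      intro x
      by_cases hx : g (-(n : ℝ)) x ∈ B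
      · have hx' : x ∈ B := by
          intro r hr
          have h3 := hx (r + n) (by positivity)
          rw [← flow_add hv hg, add_neg_cancel_right] at h3
          exact h3
        rw [indicator_of_mem hx, indicator_of_mem hx']
      · rw [indicator_of_notMem hx]
        exact zero_le
    have hfin : ∫⁻ x in cube, B.indicator (fun _ => (1 : ℝ≥0∞)) (g (-(n : ℝ)) x) ≠ ⊤ := by
      rw [h2]
      have := cube_finite
      refine ne_of_lt (lt_of_le_of_lt (lintegral_mono (g := fun _ => 1) fun x => ?_) ?_)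
      · exact indicator_le_self' (fun _ _ => zero_le) x
      · rw [lintegral_one]
        exact measure_lt_top _ _
    have h4 := ae_eq_of_ae_le_of_lintegral_le (ae_of_all (volume.restrict cube) hle) hfin
      hkm.aemeasurable h2.ge
    filter_upwards [h4] with x hx hxB
    by_contra hcon
    rw [indicator_of_notMem hcon, indicator_of_mem hxB] at hx
    exact zero_ne_one hx
  -- the orbits which stay in `Ω` in the future only
  obtain ⟨N, hN⟩ : ∃ N : Set V, N = B ∩ ⋃ n : ℕ, (g (-(n : ℝ)) ⁻¹' B)ᶜ := ⟨_, rfl⟩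
  have hNm : MeasurableSet N := by
    rw [hN]
    exact hBm.inter (MeasurableSet.iUnion fun n =>
      ((flow_cont hv hg _).measurable hBm).compl)
  have hNp : ∀ (i : Fin 3) (x : V), x + Pi.single i 1 ∈ N ↔ x ∈ N := by
    intro i x
    rw [hN]
    simp only [mem_inter_iff, mem_iUnion, mem_compl_iff, mem_preimage, flow_per hv hg, hBp i _]
  have hN0 : ∀ᵐ x ∂(volume.restrict cube), x ∉ N := by
    filter_upwards [ae_all_iff.2 h1] with x hx hxN
    rw [hN] at hxN
    obtain ⟨hxB, hxU⟩ := hxN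
    obtain ⟨n, hn⟩ := mem_iUnion.1 hxU
    exact hn (hx n hxB)
  have hkm' : Measurable (N.indicator fun _ => (1 : ℝ≥0∞)) := measurable_const.indicator hNm
  have hkp' := ind_per hNp
  have h5 : ∀ n : ℕ, ∀ᵐ x ∂(volume.restrict cube), g (n : ℝ) x ∉ N := by
    intro n
    have h2 := lintegral_flow hv hdiv hg hkm' hkp' (n : ℝ)
    have h3 : ∫⁻ x in cube, N.indicator (fun _ => (1 : ℝ≥0∞)) x = 0 := by
      rw [lintegral_eq_zero_iff hkm']
      filter_upwards [hN0] with x hx
      rw [indicator_of_notMem hx]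
      rfl
    have hmc : Measurable fun x => N.indicator (fun _ => (1 : ℝ≥0∞)) (g (n : ℝ) x) :=
      hkm'.comp (flow_cont hv hg _).measurable
    rw [h3, lintegral_eq_zero_iff hmc] at h2
    filter_upwards [h2] with x hx hxN
    have hx' : N.indicator (fun _ => (1 : ℝ≥0∞)) (g (n : ℝ) x) = 0 := hx
    rw [indicator_of_mem hxN] at hx'
    exact one_ne_zero hx'
  filter_upwards [ae_all_iff.2 h5] with x hx n hn r
  have h6 : g (n : ℝ) x ∈ B := by
    intro s hs
    rw [← flow_add hv hg]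
    exact hn _ (by linarith)
  have h7 : ∀ m : ℕ, g (-(m : ℝ)) (g (n : ℝ) x) ∈ B := by
    intro m
    by_contra hcon
    refine hx n ?_
    rw [hN]
    exact ⟨h6, mem_iUnion.2 ⟨m, hcon⟩⟩
  obtain ⟨m, hm⟩ := exists_nat_ge (n - r : ℝ)
  have h8 := h7 m (r + m - n) (by linarith)
  rw [← flow_add hv hg, ← flow_add hv hg] at h8
  have e : r + m - n + -(m : ℝ) + n = r := by ring
  rwa [e] at h8

include hv hdiv hg hΩo hΩp in
/-- The excursion inequality with signs. -/
theorem erg_arcs {G : V → ℝ} (hGm : Measurable (Ω.indicator G))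
    (hGp : Per G) (hGi : IntegrableOn (Ω.indicator G) cube) {C : ℝ} (hC : ∀ x ∈ Ω, G x ≤ C)
    (H : ∀ᵐ x ∂(volume.restrict cube), ArcsIn Ω G (fun r => g r x)) :
    ∫ x in cube, Ω.indicator G x ≤ 0 := by
  obtain ⟨G₁, hG₁⟩ : ∃ G₁ : V → ℝ, G₁ = Ω.indicator G := ⟨_, rfl⟩
  rw [← hG₁] at hGm hGi ⊢
  have hp₁ : Per G₁ := by
    intro i x
    rw [hG₁]
    by_cases hx : x ∈ Ω
    · rw [indicator_of_mem hx, indicator_of_mem ((hΩp i x).2 hx), hGp i x]
    · rw [indicator_of_notMem hx, indicator_of_notMem fun h => hx ((hΩp i x).1 h)]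
  have hC₁ : ∀ x, G₁ x ≤ |C| := by
    intro x
    rw [hG₁]
    by_cases hx : x ∈ Ω
    · rw [indicator_of_mem hx]
      exact (hC x hx).trans (le_abs_self C)
    · rw [indicator_of_notMem hx]
      exact abs_nonneg C
  refine erg hv hdiv hg hGm hp₁ hGi hC₁ ?_
  filter_upwards [H, rec_ae hv hdiv hg hΩo hΩp, good_ae hv hdiv hg hGm hp₁ hGi] with x hx1 hx2
    hx3
  have hgc : Continuous fun r => g r x := hg.continuous x
  have hUo : IsOpen {r : ℝ | g r x ∈ Ω} := hΩo.preimage hgc
  intro ε hε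
  by_cases hall : ∀ r : ℝ, g r x ∈ Ω
  · obtain ⟨τ, hτ, h⟩ := hx1.2 hall ε hε
    refine ⟨τ, hτ, le_of_eq_of_le ?_ h⟩
    refine setIntegral_congr_fun measurableSet_Ioo fun r _ => ?_
    show G₁ (g r x) = G (g r x)
    rw [hG₁, indicator_of_mem (hall r)]
  · -- arbitrarily late times at which the orbit is not in `Ω`
    have hlate : ∀ n : ℕ, ∃ r : ℝ, n ≤ r ∧ g r x ∉ Ω := by
      intro n
      by_contra hcon
      push Not at hcon
      exact hall (hx2 n hcon)
    obtain ⟨τ₀, hτ₀, hW₀⟩ := hlate 0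
    rw [Nat.cast_zero] at hτ₀
    set c : ℝ := orb g G₁ τ₀ x with hc
    obtain ⟨n, hn⟩ := exists_nat_gt (max τ₀ (|c| / ε))
    obtain ⟨τ, hτ, hW⟩ := hlate n
    have h1 : τ₀ < τ := (le_max_left _ _).trans_lt (hn.trans_le hτ)
    have h2 : |c| / ε < τ := (le_max_right _ _).trans_lt (hn.trans_le hτ)
    have hτ0 : 0 < τ := hτ₀.trans_lt h1
    refine ⟨τ, hτ0, ?_⟩
    have h3 : ∫ r in Ioo 0 τ, G₁ (g r x) = c + ∫ r in Ioo τ₀ τ, G₁ (g r x) := by
      rw [hc]
      unfold orb
      rw [← integral_Ioc_eq_integral_Ioo, ← integral_Ioc_eq_integral_Ioo,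
        ← intervalIntegral.integral_of_le hτ0.le, ← intervalIntegral.integral_of_le h1.le]
      exact (intervalIntegral.integral_add_adjacent_intervals (hx3.interval le_rfl hτ₀)
        (hx3.interval hτ₀ hτ0.le)).symm
    have hk : IntegrableOn (fun r => G₁ (g r x)) (Ioo τ₀ τ) :=
      (intervalIntegrable_iff_integrableOn_Ioo_of_le h1.le).1 (hx3.interval hτ₀ hτ0.le)
    have h4 := int_above hUo (a₀ := τ₀) (b₀ := τ) hW₀ hW hk
      (fun a b ha hab hb hwa hwb hexc => by
      refine le_of_eq_of_le ?_ (hx1.1 a b hab hwa hwb hexc)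
      refine setIntegral_congr_fun measurableSet_Ioo fun r hr => ?_
      show G₁ (g r x) = G (g r x)
      have h9 : g r x ∈ Ω := hexc hr
      rw [hG₁, indicator_of_mem h9])
    have h5 : ∫ r in Ioo τ₀ τ ∩ {r | g r x ∈ Ω}, G₁ (g r x)
        = ∫ r in Ioo τ₀ τ, G₁ (g r x) := by
      refine (setIntegral_eq_of_subset_of_forall_sdiff_eq_zero measurableSet_Ioo
        inter_subset_left fun r hr => ?_).symm
      have h6 : g r x ∉ Ω := fun h => hr.2 ⟨hr.1, h⟩
      rw [hG₁, indicator_of_notMem h6]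
    rw [h5] at h4
    rw [h3]
    have h7 : |c| ≤ ε * τ := by
      rw [div_lt_iff₀ hε] at h2
      linarith
    have h8 := le_abs_self c
    linarith

end

end Pool.Agent.X6.VA
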