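import Pool.Agent.X6.VA.Int

/-!
An integrated regularity criterion, for almost every time.
-/

open MeasureTheory Set Filter Topology
open scoped ContDiff ENNReal NNReal
open H459R3.NS Pool.Agent.W268.NS

set_option autoImplicit false

namespace Pool.Agent.X6.VA

theorem int_gradSq {v : V → V} (hv : ∀ i, SP (fun y => v y i)) :
    ∫ x in cube, gradSq v x = enstrophy v := by
  have hsq : ∀ i j, IntegrableOn (fun x => gradM v x i j ^ 2) cube := by
    intro i j
    refine ((sp_grad hv i j).mul (sp_grad hv i j)).int.congr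
      (Filter.Eventually.of_forall fun x => ?_)
    simp only [sq]
  unfold gradSq
  rw [integral_finsetSum _ fun i _ => integrable_finsetSum _ fun j _ => hsq i j]
  have e : ∀ i, ∫ x in cube, ∑ j, gradM v x i j ^ 2 = ∑ j, ∫ x in cube, gradM v x i j ^ 2 :=
    fun i => integral_finsetSum _ fun j _ => hsq i j
  simp_rw [e]
  rw [Finset.sum_comm]
  rfl

/-- A crude bound of the enstrophy production. -/
theorem exists_crude {v : V → V} (hv : ∀ i, SP (fun y => v y i))
    (hdiv : ∀ x, ∑ i, pd i (fun y => v y i) x = 0) :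
    ∃ K : ℝ, 0 ≤ K ∧ -(2 * cub (fun i y => v y i)) ≤ K * enstrophy v := by
  obtain ⟨B, hB⟩ := isCompact_Icc.exists_bound_of_continuousOn (s := cube)
    (sp_gradSq hv).cont.continuousOn
  have hB0 : 0 ≤ B := (norm_nonneg _).trans (hB 0 ⟨le_rfl, zero_le_one⟩)
  refine ⟨4 * Real.sqrt B, by positivity, ?_⟩
  have h1 := cub_eq_stretch hv hdiv
  have h2 : ∫ x in cube, stretchRate v x ≤ ∫ x in cube, 2 * Real.sqrt B * gradSq v x := by
    refine setIntegral_mono_on (sp_stretchRate hv).int ((sp_gradSq hv).int.const_mul _)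
      measurableSet_Icc fun x hx => ?_
    have h3 := hB x hx
    rw [Real.norm_eq_abs, abs_of_nonneg (gradSq_nonneg _ _)] at h3
    have h4 := vsq_le v x
    calc stretchRate v x ≤ vsq v x * Real.sqrt (gradSq v x) := (le_abs_self _).trans (stretch_le v x)
      _ ≤ (2 * gradSq v x) * Real.sqrt B := by
          refine mul_le_mul h4 (Real.sqrt_le_sqrt h3) (Real.sqrt_nonneg _) ?_
          have := gradSq_nonneg v x
          positivity
      _ = 2 * Real.sqrt B * gradSq v x := by ring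
  rw [integral_const_mul, int_gradSq hv] at h2
  linarith

/-- The integrated criterion. -/
theorem crit_int {p : ℝ≥0∞} (hp : 3 / 2 < p) {q : ℝ} (hpq : 3 * (p⁻¹).toReal + 2 / q = 2)
    {ν κ : ℝ} (hν : 0 < ν) (hκ0 : 0 ≤ κ) (hκ : κ < 1) :
    ∃ C : ℝ, 0 ≤ C ∧ ∀ (T : ℝ) (u : ℝ → V → V) (P : ℝ → V → ℝ) (β M : ℝ → ℝ), IsSol ν T u P →
      IntegrableOn (fun t => β t ^ q) (Ioo 0 T) → IntegrableOn M (Ioo 0 T) →
      (∀ᵐ t ∂(volume.restrict (Ioo 0 T)), 0 ≤ β t ∧ 0 ≤ M t ∧ ∃ f : V → ℝ,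
        AEStronglyMeasurable f (volume.restrict cube) ∧
        eLpNorm f p (volume.restrict cube) ≤ ENNReal.ofReal (β t) ∧
        ∫ x in cube, stretchRate (u t) x ≤ (∫ x in cube, |f x| * vsq (u t) x)
          + κ * ν * palin (u t) + M t * enstrophy (u t)) →
      (∀ t ∈ Ico 0 T, enstrophy (u t) ≤ enstrophy (u 0) * Real.exp
        (C * ((∫ τ in Ioo 0 T, β τ ^ q) + ∫ τ in Ioo 0 T, M τ))) ∧
      ∃ B, ∀ t ∈ Ico 0 T, ∀ x i, |u t x i| ≤ B := by
  set θ := th p with hθ
  have hθ0 : 0 ≤ θ := th_nonneg p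
  have hθ2 : θ < 2 := th_lt_two hp
  have hq : q = 2 / (2 - θ) := by
    have h1 : 2 / q = 2 - θ := by
      have : θ = 3 * (p⁻¹).toReal := rfl
      rw [this]
      linarith
    rw [← h1]
    have : q ≠ 0 := by
      intro h0
      rw [h0, div_zero] at h1
      linarith
    field_simp
  obtain ⟨C0, hC00, hC0⟩ := int_pot hp
  have hδ : 0 < 1 - κ := by linarith
  obtain ⟨D1, hD10, hD1⟩ := young2 (θ := θ) (ε := (1 - κ) * ν) (c := 4 * C0) hθ0 hθ2
    (by positivity) (by positivity)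
  refine ⟨D1 + 2, by positivity, fun T u P β M h hβi hMi hcomp => ?_⟩
  set y : ℝ → ℝ := fun s => enstrophy (u s) with hy
  have hy0 : ∀ s, 0 ≤ y s := fun s => enstrophy_nonneg _
  set g₀ : ℝ → ℝ := fun s => D1 * β s ^ q + 2 * M s with hg₀
  -- the differential inequality for almost every time
  have hae : ∀ᵐ s ∂(volume.restrict (Ioo 0 T)), 0 ≤ g₀ s ∧
      -(2 * cub (fun i x => u s x i)) ≤ (2 - (1 - κ)) * (ν * palin (u s)) + g₀ s * y s := by
    filter_upwards [hcomp, ae_restrict_mem measurableSet_Ioo] with τ hτc hτ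
    obtain ⟨hβ0, hM0, f, hf, hfβ, hle⟩ := hτc
    have hI : τ ∈ Ico 0 T := ⟨hτ.1.le, hτ.2⟩
    have hg0 : 0 ≤ g₀ τ := by
      have h1 := Real.rpow_nonneg hβ0 q
      simp only [hg₀]
      positivity
    refine ⟨hg0, ?_⟩
    set G := Real.sqrt (y τ) with hG
    set H := Real.sqrt (palin (u τ)) with hH
    have hG2 : G ^ 2 = y τ := Real.sq_sqrt (hy0 τ)
    have hH2 : H ^ 2 = palin (u τ) := Real.sq_sqrt (palin_nonneg _)
    have hG0 : 0 ≤ G := Real.sqrt_nonneg _
    have hH0 : 0 ≤ H := Real.sqrt_nonneg _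
    have ha : GH2 (fun i x => u τ x i) G H :=
      ⟨fun i => h.sp hI i, hG0, hH0, hG2.symm.le, hH2.symm.le⟩
    have hv : ∀ i, SP (fun y => u τ y i) := fun i => h.sp hI i
    have hfa : AEStronglyMeasurable (fun x => |f x|) (volume.restrict cube) := hf.norm
    have hfaβ : eLpNorm (fun x => |f x|) p (volume.restrict cube) ≤ ENNReal.ofReal (β τ) := by
      have := eLpNorm_norm f (p := p) (μ := volume.restrict cube)
      simp only [Real.norm_eq_abs] at this
      rw [this]
      exact hfβ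
    obtain ⟨i1, b1⟩ := hC0 (fun x => |f x|) (u τ) G H (β τ) hfa hβ0 hfaβ ha
    have b2 : ∫ x in cube, |f x| * vsq (u τ) x ≤ 2 * ∫ x in cube, |f x| * gradSq (u τ) x := by
      rw [← integral_const_mul]
      refine integral_mono_of_nonneg (Filter.Eventually.of_forall fun x =>
        mul_nonneg (abs_nonneg _) (vsq_nonneg _ _)) (i1.const_mul 2)
        (Filter.Eventually.of_forall fun x => ?_)
      have h1 := vsq_le (u τ) x
      have h2 := abs_nonneg (f x)
      show |f x| * vsq (u τ) x ≤ 2 * (|f x| * gradSq (u τ) x)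
      nlinarith
    have b3 := cub_eq_stretch hv (h.divfree τ hI)
    have hY1 := hD1 (β τ) G H hβ0 hG0 hH0
    have h8 : g₀ τ * y τ = D1 * (β τ ^ (2 / (2 - θ)) * G ^ 2) + 2 * M τ * y τ := by
      simp only [hg₀]
      rw [← hG2, hq]
      ring
    show -(2 * cub (fun i x => u τ x i)) ≤ (2 - (1 - κ)) * (ν * palin (u τ)) + g₀ τ * y τ
    have b1' : ∫ x in cube, |f x| * gradSq (u τ) x ≤ C0 * (β τ * (G ^ (2 - θ) * H ^ θ)) := b1
    have hle' : ∫ x in cube, stretchRate (u τ) x ≤ (∫ x in cube, |f x| * vsq (u τ) x)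
          + κ * ν * palin (u τ) + M τ * y τ := hle
    rw [h8]
    rw [← hH2] at hle' ⊢
    linarith
  -- modification on a null set
  have hcr : ∀ s : ℝ, ∃ K : ℝ, s ∈ Ioo 0 T → 0 ≤ K ∧
      -(2 * cub (fun i x => u s x i)) ≤ K * y s := by
    intro s
    by_cases hs : s ∈ Ioo 0 T
    · have hI : s ∈ Ico 0 T := ⟨hs.1.le, hs.2⟩
      obtain ⟨K, hK0, hK⟩ := exists_crude (v := u s) (fun i => h.sp hI i) (h.divfree s hI)
      exact ⟨K, fun _ => ⟨hK0, hK⟩⟩
    · exact ⟨0, fun h => absurd h hs⟩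
  choose K hK using hcr
  classical
  set g : ℝ → ℝ := fun s => if 0 ≤ g₀ s ∧ -(2 * cub (fun i x => u s x i))
    ≤ (2 - (1 - κ)) * (ν * palin (u s)) + g₀ s * y s then g₀ s else K s with hg
  have hgg : g =ᵐ[volume.restrict (Ioo 0 T)] g₀ := by
    filter_upwards [hae] with s hs
    simp only [hg]
    rw [if_pos hs]
  have hg₀i : IntegrableOn g₀ (Ioo 0 T) := (hβi.const_mul _).add (hMi.const_mul _)
  have hgi : IntegrableOn g (Ioo 0 T) := hg₀i.congr hgg.symm
  have hg0 : ∀ s ∈ Ioo 0 T, 0 ≤ g s := by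
    intro s hs
    simp only [hg]
    split_ifs with hc
    · exact hc.1
    · exact (hK s hs).1
  refine h.gron hν (g := g) hδ hg0 (fun t ht => ?_) (fun t ht => ?_) (fun τ hτ => ?_)
  · rw [integrableOn_Icc_iff_integrableOn_Ioc, integrableOn_Ioc_iff_integrableOn_Ioo]
    exact hgi.mono_set (Ioo_subset_Ioo_right ht.2.le)
  · rw [intervalIntegral.integral_of_le ht.1, integral_Ioc_eq_integral_Ioo]
    have a1 : ∫ s in Ioo 0 t, g s ≤ ∫ s in Ioo 0 T, g s := by
      refine setIntegral_mono_set hgi ?_ (Ioo_subset_Ioo_right ht.2.le).eventuallyLE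
      filter_upwards [ae_restrict_mem measurableSet_Ioo] with s hs
      exact hg0 s hs
    have a2 : ∫ s in Ioo 0 T, g s = D1 * (∫ τ in Ioo 0 T, β τ ^ q) + 2 * ∫ τ in Ioo 0 T, M τ := by
      rw [integral_congr_ae hgg]
      simp only [hg₀]
      rw [integral_add (hβi.const_mul _) (hMi.const_mul _), integral_const_mul,
        integral_const_mul]
    have b1 : 0 ≤ ∫ τ in Ioo 0 T, β τ ^ q := by
      refine integral_nonneg_of_ae ?_
      filter_upwards [hcomp] with s hs
      exact Real.rpow_nonneg hs.1 q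
    have b2 : 0 ≤ ∫ τ in Ioo 0 T, M τ := by
      refine integral_nonneg_of_ae ?_
      filter_upwards [hcomp] with s hs
      exact hs.2.1
    have b3 : 0 ≤ D1 * ∫ τ in Ioo 0 T, M τ := by positivity
    linarith
  · show -(2 * cub (fun i x => u τ x i)) ≤ (2 - (1 - κ)) * (ν * palin (u τ)) + g τ * y τ
    simp only [hg]
    split_ifs with hc
    · exact hc.2
    · have h1 := (hK τ hτ).2
      have h2 : 0 ≤ (2 - (1 - κ)) * (ν * palin (u τ)) := by
        have := palin_nonneg (u τ)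
        have h3 : 0 ≤ 2 - (1 - κ) := by linarith
        positivity
      linarith

end Pool.Agent.X6.VA
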