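import Pool.Agent.TH811.SPD.Str6

/-!
A maximal ergodic inequality for the flow of a smooth periodic divergence-free vector field.
-/

open MeasureTheory Set Filter Topology
open scoped ContDiff ENNReal NNReal
open H459R3.NS Pool.Agent.W268.NS Pool.Agent.GR.Flow Pool.Agent.TH811.SPD

set_option autoImplicit false

namespace Pool.Agent.X6.VA

/-- The smallest of the sums `∑_{k < m} F (θ^k x)`, `m ≤ n`. -/
noncomputable def mseq (θ : V → V) (F : V → ℝ) : ℕ → V → ℝ
  | 0 => fun _ => 0
  | n + 1 => fun x => min 0 (F x + mseq θ F n (θ x))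

theorem mseq_nonpos (θ : V → V) (F : V → ℝ) (n : ℕ) (x : V) : mseq θ F n x ≤ 0 := by
  cases n with
  | zero => exact le_rfl
  | succ n => exact min_le_left _ _

theorem mseq_anti (θ : V → V) (F : V → ℝ) (n : ℕ) : ∀ x, mseq θ F (n + 1) x ≤ mseq θ F n x := by
  induction n with
  | zero => intro x; exact min_le_left _ _
  | succ n ih =>
    intro x
    show min 0 (F x + mseq θ F (n + 1) (θ x)) ≤ min 0 (F x + mseq θ F n (θ x))
    have := ih (θ x)
    exact min_le_min le_rfl (by linarith)

section

variable {v : V → V} (hv : ∀ i, SP (fun y => v y i))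
  (hdiv : ∀ x, ∑ i, pd i (fun y => v y i) x = 0) {g : ℝ → V → V} (hg : IsFlowOf v g)

include hv hg in
theorem mseq_meas {F : V → ℝ} (hF : Measurable F) (h : ℝ) (n : ℕ) :
    Measurable (mseq (g h) F n) := by
  induction n with
  | zero => exact measurable_const
  | succ n ih =>
    exact measurable_const.min (hF.add (ih.comp (flow_cont hv hg h).measurable))

include hv hg in
theorem mseq_per {F : V → ℝ} (hF : Per F) (h : ℝ) (n : ℕ) : Per (mseq (g h) F n) := by
  induction n with
  | zero => intro i x; rfl
  | succ n ih =>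
    intro i x
    show min 0 (F (x + Pi.single i 1) + mseq (g h) F n (g h (x + Pi.single i 1))) = _
    rw [hF i x, flow_per hv hg h x i, ih i (g h x)]
    rfl

include hv hdiv hg in
theorem mseq_int {F : V → ℝ} (hFm : Measurable F) (hFp : Per F) (hFi : IntegrableOn F cube)
    (h : ℝ) (n : ℕ) : IntegrableOn (mseq (g h) F n) cube := by
  induction n with
  | zero =>
    have := cube_finite
    exact integrable_zero _ _ _
  | succ n ih =>
    have := cube_finite
    have h1 : IntegrableOn (fun x => mseq (g h) F n (g h x)) cube :=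
      integrable_flow hv hdiv hg (mseq_meas hv hg hFm h n) (mseq_per hv hg hFp h n) ih h
    have h2 : IntegrableOn (fun x => F x + mseq (g h) F n (g h x)) cube := hFi.add h1
    exact (integrable_const (0 : ℝ)).inf h2

include hv hdiv hg in
/-- The maximal inequality. -/
theorem max_ineq {F : V → ℝ} (hFm : Measurable F) (hFp : Per F) (hFi : IntegrableOn F cube)
    (h : ℝ) (n : ℕ) : ∫ x in cube, {x | mseq (g h) F n x < 0}.indicator F x ≤ 0 := by
  have := cube_finite
  have im := mseq_int hv hdiv hg hFm hFp hFi h n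
  have im' := integrable_flow hv hdiv hg (mseq_meas hv hg hFm h n) (mseq_per hv hg hFp h n) im h
  have hS : MeasurableSet {x | mseq (g h) F n x < 0} :=
    measurableSet_lt (mseq_meas hv hg hFm h n) measurable_const
  have e := integral_flow hv hdiv hg (mseq_meas hv hg hFm h n) (mseq_per hv hg hFp h n) h
  have e2 : ∫ x in cube, (mseq (g h) F n x - mseq (g h) F n (g h x)) = 0 := by
    rw [integral_sub im im', e, sub_self]
  refine le_of_le_of_eq ?_ e2
  refine integral_mono (Integrable.indicator hFi hS) (im.sub im') fun x => ?_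
  show {x | mseq (g h) F n x < 0}.indicator F x ≤ mseq (g h) F n x - mseq (g h) F n (g h x)
  by_cases hx : mseq (g h) F n x < 0
  · rw [indicator_of_mem (show x ∈ {x | mseq (g h) F n x < 0} from hx)]
    cases n with
    | zero => exact absurd hx (lt_irrefl _)
    | succ n =>
      have h1 : mseq (g h) F (n + 1) x = F x + mseq (g h) F n (g h x) := by
        have h2 : mseq (g h) F (n + 1) x = min 0 (F x + mseq (g h) F n (g h x)) := rfl
        rw [h2] at hx ⊢
        rcases min_lt_iff.1 hx with h3 | h3
        · exact absurd h3 (lt_irrefl _)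
        · exact min_eq_right h3.le
      have h4 := mseq_anti (g h) F n (g h x)
      show F x ≤ mseq (g h) F (n + 1) x - mseq (g h) F (n + 1) (g h x)
      linarith
  · rw [indicator_of_notMem (show x ∉ {x | mseq (g h) F n x < 0} from hx)]
    have h1 : mseq (g h) F n x = 0 := le_antisymm (mseq_nonpos _ _ _ _) (not_lt.1 hx)
    have h2 := mseq_nonpos (g h) F n (g h x)
    show 0 ≤ mseq (g h) F n x - mseq (g h) F n (g h x)
    linarith

/-- The integral of `G` along the orbit of `x` over the times in `(0, s)`. -/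
noncomputable def orb (g : ℝ → V → V) (G : V → ℝ) (s : ℝ) (x : V) : ℝ :=
  ∫ r in (0 : ℝ)..s, G (g r x)

/-- `G` is integrable along the forward orbit of `x`. -/
def Good (g : ℝ → V → V) (G : V → ℝ) (x : V) : Prop :=
  ∀ n : ℕ, IntegrableOn (fun t => G (g t x)) (Ioo 0 n)

theorem Good.interval {G : V → ℝ} {x : V} (h : Good g G x) {a b : ℝ} (ha : 0 ≤ a) (hb : 0 ≤ b) :
    IntervalIntegrable (fun t => G (g t x)) volume a b := by
  obtain ⟨n, hn⟩ := exists_nat_gt (max a b)
  have h1 : IntegrableOn (fun t => G (g t x)) (Icc 0 n) := by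
    rw [integrableOn_Icc_iff_integrableOn_Ioo]
    exact h n
  rw [intervalIntegrable_iff]
  refine h1.mono_set ?_
  intro r hr
  rw [uIoc, mem_Ioc] at hr
  exact ⟨(le_min ha hb).trans hr.1.le, hr.2.trans hn.le⟩

include hv hdiv hg in
theorem good_ae {G : V → ℝ} (hGm : Measurable G) (hGp : Per G) (hGi : IntegrableOn G cube) :
    ∀ᵐ x ∂(volume.restrict cube), Good g G x := by
  unfold Good
  rw [ae_all_iff]
  intro n
  exact (int_prod_flow hv hdiv hg hGm hGp hGi (Nat.cast_nonneg n)).2.1

include hv hg in
theorem orb_add {G : V → ℝ} {x : V} (hx : Good g G x) {h s : ℝ} (hh : 0 ≤ h) (hs : 0 ≤ s) :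
    orb g G (h + s) x = orb g G h x + orb g G s (g h x) := by
  unfold orb
  have e : ∀ r, g r (g h x) = g (r + h) x := fun r => (flow_add hv hg r h x).symm
  simp_rw [e]
  rw [intervalIntegral.integral_comp_add_right (fun r => G (g r x)) h, zero_add, add_comm s h]
  exact (intervalIntegral.integral_add_adjacent_intervals (hx.interval le_rfl hh)
    (hx.interval hh (by positivity))).symm

include hv hg in
theorem Good.shift {G : V → ℝ} {x : V} (hx : Good g G x) {h : ℝ} (hh : 0 ≤ h) :
    Good g G (g h x) := by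
  intro n
  have e : ∀ r, g r (g h x) = g (r + h) x := fun r => (flow_add hv hg r h x).symm
  simp_rw [e]
  have h1 : IntervalIntegrable (fun t => G (g t x)) volume (0 + h) (n + h) :=
    hx.interval (by positivity) (by positivity)
  have h2 := h1.comp_add_right h
  rw [add_sub_cancel_right, add_sub_cancel_right] at h2
  exact ((intervalIntegrable_iff_integrableOn_Ioo_of_le (Nat.cast_nonneg n)).1 h2)

include hv hg in
theorem mseq_le {G : V → ℝ} {h : ℝ} (hh : 0 ≤ h) (N : ℕ) : ∀ (n : ℕ) (x : V), Good g G x → n ≤ N →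
    mseq (g h) (orb g G h) N x ≤ orb g G (n * h) x := by
  induction N with
  | zero =>
    intro n x _ hn
    obtain rfl : n = 0 := by omega
    simp [mseq, orb]
  | succ N ih =>
    intro n x hx hn
    cases n with
    | zero => simpa [orb] using mseq_nonpos (g h) (orb g G h) (N + 1) x
    | succ n =>
      have h1 := ih n (g h x) (hx.shift hv hg hh) (by omega)
      have h2 : ((n + 1 : ℕ) : ℝ) * h = h + n * h := by push_cast; ring
      rw [h2, orb_add hv hg hx hh (by positivity)]
      refine (min_le_right _ _).trans ?_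
      linarith

theorem orb_cont {G : V → ℝ} {x : V} (hx : Good g G x) {s : ℝ} (hs : 0 < s) :
    ContinuousAt (fun s => orb g G s x) s := by
  have h1 : ContinuousOn (fun s => orb g G s x) (Icc 0 (s + 1)) := by
    unfold orb
    have h2 : IntegrableOn (fun t => G (g t x)) (Icc 0 (s + 1)) := by
      have := hx.interval (a := 0) (b := s + 1) le_rfl (by linarith)
      exact (intervalIntegrable_iff_integrableOn_Icc_of_le (by linarith)).1 this
    have := intervalIntegral.continuousOn_primitive_interval (μ := volume) (a := 0) (b := s + 1)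
      (f := fun t => G (g t x)) (by rwa [uIcc_of_le (by linarith : (0 : ℝ) ≤ s + 1)])
    rwa [uIcc_of_le (by linarith : (0 : ℝ) ≤ s + 1)] at this
  exact h1.continuousAt (Icc_mem_nhds hs (by linarith))

include hv hdiv hg in
theorem orb_props {G : V → ℝ} (hGm : Measurable G) (hGp : Per G) (hGi : IntegrableOn G cube)
    {h : ℝ} (hh : 0 ≤ h) : Measurable (orb g G h) ∧ Per (orb g G h) ∧
      IntegrableOn (orb g G h) cube ∧ ∫ x in cube, orb g G h x = h * ∫ x in cube, G x := by
  have e : orb g G h = fun x => ∫ t in Ioo 0 h, G (g t x) := by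
    funext x
    unfold orb
    rw [intervalIntegral.integral_of_le hh, integral_Ioc_eq_integral_Ioo]
  obtain ⟨h1, -, h3⟩ := int_prod_flow hv hdiv hg hGm hGp hGi hh
  refine ⟨?_, ?_, ?_, ?_⟩
  · rw [e]
    have := (meas_flow hv hg hGm).stronglyMeasurable
    exact (this.integral_prod_left' (μ := volume.restrict (Ioo 0 h))).measurable
  · intro i x
    unfold orb
    congr 1
    funext r
    rw [flow_per hv hg r x i, hGp]
  · rw [e]; exact h1
  · rw [e]; exact h3

include hv hdiv hg in
/-- The mean ergodic inequality: if the infimum of the means of `G` over the arcs which start at `x`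
is not positive for almost all `x`, then the integral of `G` is not positive. -/
theorem erg {G : V → ℝ} (hGm : Measurable G) (hGp : Per G) (hGi : IntegrableOn G cube) {C : ℝ}
    (hC : ∀ x, G x ≤ C)
    (H : ∀ᵐ x ∂(volume.restrict cube), ∀ ε : ℝ, 0 < ε → ∃ τ : ℝ, 0 < τ ∧
      ∫ r in Ioo 0 τ, G (g r x) ≤ ε * τ) : ∫ x in cube, G x ≤ 0 := by
  have hfin := cube_finite
  have hvol : (volume.restrict cube).real univ = 1 := by
    simp [Measure.real, volume_cube]
  -- it is enough to consider `G - ε`
  suffices hmain : ∀ ε : ℝ, 0 < ε → ∫ x in cube, (G x - ε) ≤ 0 by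
    refine le_of_forall_pos_le_add fun ε hε => ?_
    have h1 := hmain ε hε
    rw [integral_sub hGi (integrable_const _), integral_const, hvol] at h1
    simpa using h1
  intro ε hε
  obtain ⟨G', hG'⟩ : ∃ G' : V → ℝ, G' = fun x => G x - ε := ⟨_, rfl⟩
  have hm' : Measurable G' := by rw [hG']; exact hGm.sub_const _
  have hp' : Per G' := by
    intro i x
    rw [hG']
    simp only [hGp i x]
  have hi' : IntegrableOn G' cube := by rw [hG']; exact hGi.sub (integrable_const _)
  have hC' : ∀ x, G' x ≤ |C| := fun x => by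
    rw [hG']
    have := hC x
    have := le_abs_self C
    show G x - ε ≤ |C|
    linarith
  show ∫ x in cube, (G x - ε) ≤ 0
  have hrw : ∫ x in cube, (G x - ε) = ∫ x in cube, G' x := by rw [hG']
  rw [hrw]
  have hgood := good_ae hv hdiv hg hGm hGp hGi
  have hgood' := good_ae hv hdiv hg hm' hp' hi'
  set hh : ℕ → ℝ := fun j => 1 / 2 ^ j with hhh
  have hh0 : ∀ j, 0 < hh j := fun j => by simp only [hhh]; positivity
  set E : ℕ → Set V := fun j => {x | mseq (g (hh j)) (orb g G' (hh j)) (4 ^ j) x < 0} with hE
  have hEm : ∀ j, MeasurableSet (E j) := fun j =>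
    measurableSet_lt (mseq_meas hv hg (orb_props hv hdiv hg hm' hp' hi' (hh0 j).le).1 _ _)
      measurable_const
  -- almost every point belongs to `E j` for all large `j`
  have hev : ∀ᵐ x ∂(volume.restrict cube), ∀ᶠ j in atTop, x ∈ E j := by
    filter_upwards [hgood, hgood', H] with x hx hx' hHx
    obtain ⟨τ, hτ, hτ2⟩ := hHx (ε / 2) (by positivity)
    have e1 : orb g G' τ x = orb g G τ x - ε * τ := by
      unfold orb
      rw [hG']
      simp only
      rw [intervalIntegral.integral_sub (hx.interval le_rfl hτ.le)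
        (by simp [intervalIntegrable_const])]
      simp
      ring
    have e2 : orb g G τ x = ∫ r in Ioo 0 τ, G (g r x) := by
      unfold orb
      rw [intervalIntegral.integral_of_le hτ.le, integral_Ioc_eq_integral_Ioo]
    have h3 : orb g G' τ x < 0 := by
      rw [e1, e2]
      nlinarith
    have h4 : Tendsto (fun j : ℕ => (⌊τ * 2 ^ j⌋₊ : ℝ) * hh j) atTop (𝓝 τ) := by
      have h5 : Tendsto (fun y : ℝ => (⌊τ * y⌋₊ : ℝ) / y) atTop (𝓝 τ) :=
        tendsto_nat_floor_mul_div_atTop hτ.le
      have h6 : Tendsto (fun j : ℕ => (2 : ℝ) ^ j) atTop atTop :=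
        tendsto_pow_atTop_atTop_of_one_lt (by norm_num)
      refine (h5.comp h6).congr fun j => ?_
      simp only [hhh, Function.comp]
      rw [div_eq_mul_one_div]
    have h7 : ∀ᶠ j : ℕ in atTop, orb g G' ((⌊τ * 2 ^ j⌋₊ : ℝ) * hh j) x < 0 := by
      have := (orb_cont hx' hτ).tendsto.comp h4
      exact this.eventually (gt_mem_nhds h3)
    have h8 : ∀ᶠ j : ℕ in atTop, τ ≤ (2 : ℝ) ^ j :=
      (tendsto_pow_atTop_atTop_of_one_lt (by norm_num)).eventually_ge_atTop τ
    filter_upwards [h7, h8] with j hj7 hj8
    refine lt_of_le_of_lt (mseq_le hv hg (hh0 j).le (4 ^ j) ⌊τ * 2 ^ j⌋₊ x hx' ?_) hj7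
    have h9 : (⌊τ * 2 ^ j⌋₊ : ℝ) ≤ τ * 2 ^ j := Nat.floor_le (by positivity)
    have h10 : τ * 2 ^ j ≤ (4 : ℝ) ^ j := by
      calc τ * 2 ^ j ≤ 2 ^ j * 2 ^ j := by gcongr
        _ = (4 : ℝ) ^ j := by rw [← mul_pow]; norm_num
    exact_mod_cast h9.trans h10
  -- the inequality for each `j`
  have key : ∀ j, ∫ x in cube, G' x ≤ |C| * ∫ x in cube, (E j)ᶜ.indicator (fun _ => (1 : ℝ)) x := by
    intro j
    obtain ⟨o1, o2, o3, o4⟩ := orb_props hv hdiv hg hm' hp' hi' (hh0 j).le
    have h1 := max_ineq hv hdiv hg o1 o2 o3 (hh j) (4 ^ j)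
    have h2 : ∫ x in cube, orb g G' (hh j) x
        ≤ ∫ x in cube, ((E j).indicator (orb g G' (hh j)) x
          + |C| * hh j * (E j)ᶜ.indicator (fun _ => (1 : ℝ)) x) := by
      have i1 : IntegrableOn ((E j).indicator (orb g G' (hh j))) cube := o3.indicator (hEm j)
      have i2 : IntegrableOn (fun x => |C| * hh j * (E j)ᶜ.indicator (fun _ => (1 : ℝ)) x) cube :=
        ((integrable_const (1 : ℝ)).indicator (hEm j).compl).const_mul _
      refine integral_mono_ae o3 (i1.add i2) ?_
      filter_upwards [hgood'] with x hx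
      by_cases hxE : x ∈ E j
      · have hxE' : x ∉ (E j)ᶜ := fun h => h hxE
        simp only [indicator_of_mem hxE, indicator_of_notMem hxE', mul_zero, add_zero]
        exact le_rfl
      · have hxE' : x ∈ (E j)ᶜ := hxE
        simp only [indicator_of_notMem hxE, indicator_of_mem hxE', mul_one, zero_add]
        have h5 : orb g G' (hh j) x ≤ ∫ r in (0 : ℝ)..hh j, |C| := by
          unfold orb
          exact intervalIntegral.integral_mono_on (hh0 j).le (hx.interval le_rfl (hh0 j).le)
            (by simp [intervalIntegrable_const]) fun r _ => hC' _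
        refine h5.trans (le_of_eq ?_)
        simp
        ring
    rw [o4, integral_add (o3.indicator (hEm j))
      (((integrable_const (1 : ℝ)).indicator (hEm j).compl).const_mul _), integral_const_mul] at h2
    have h3 : hh j * ∫ x in cube, G' x
        ≤ hh j * (|C| * ∫ x in cube, (E j)ᶜ.indicator (fun _ => (1 : ℝ)) x) := by
      have h1' : ∫ x in cube, (E j).indicator (orb g G' (hh j)) x ≤ 0 := h1
      calc hh j * ∫ x in cube, G' x ≤ _ := h2
        _ ≤ 0 + |C| * hh j * ∫ x in cube, (E j)ᶜ.indicator (fun _ => (1 : ℝ)) x := by gcongr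
        _ = _ := by ring
    exact le_of_mul_le_mul_left h3 (hh0 j)
  -- the limit
  have hlim : Tendsto (fun j => ∫ x in cube, (E j)ᶜ.indicator (fun _ => (1 : ℝ)) x) atTop
      (𝓝 (∫ _ in cube, (0 : ℝ))) := by
    refine tendsto_integral_of_dominated_convergence (fun _ => (1 : ℝ))
      (fun j => ((integrable_const (1 : ℝ)).indicator (hEm j).compl).aestronglyMeasurable)
      (integrable_const _) (fun j => ae_of_all _ fun x => ?_) ?_
    · by_cases hx : x ∈ (E j)ᶜ
      · rw [indicator_of_mem hx]; simp
      · rw [indicator_of_notMem hx]; simp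
    · filter_upwards [hev] with x hx
      refine tendsto_const_nhds.congr' ?_
      filter_upwards [hx] with j hj
      rw [indicator_of_notMem]
      exact fun h => h hj
  rw [integral_zero] at hlim
  have h9 := hlim.const_mul |C|
  rw [mul_zero] at h9
  exact ge_of_tendsto' h9 key

end

end Pool.Agent.X6.VA
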