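import Pool.Agent.X6.VA.Agm

/-!
The time integrability of the maximum of the velocity (Foias, Guillopé, Temam).
-/

open MeasureTheory Set Filter Topology
open scoped ContDiff ENNReal NNReal
open H459R3.NS Pool.Agent.W268.NS

set_option autoImplicit false

namespace Pool.Agent.X6.VA

theorem prod_cube : ∃ C : ℝ, 0 ≤ C ∧ ∀ v : V → V, (∀ i, SP (fun y => v y i)) →
    (∀ x, ∑ i, pd i (fun y => v y i) x = 0) →
    -(2 * cub (fun i y => v y i)) ≤ C * (Real.sqrt (enstrophy v) *
      (Real.sqrt (enstrophy v) ^ (2 - 3 / 2 : ℝ) * Real.sqrt (palin v) ^ (3 / 2 : ℝ))) := by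
  obtain ⟨C, hC0, hC⟩ := int_pot (p := 2) (by
    rw [ENNReal.div_lt_iff (Or.inl (by norm_num)) (Or.inl (by norm_num))]
    norm_num)
  refine ⟨4 * C, by positivity, fun v hv hdiv => ?_⟩
  set G := Real.sqrt (enstrophy v) with hG
  set H := Real.sqrt (palin v) with hH
  have hG2 : G ^ 2 = enstrophy v := Real.sq_sqrt (enstrophy_nonneg _)
  have hH2 : H ^ 2 = palin v := Real.sq_sqrt (palin_nonneg _)
  have ha : GH2 (fun i x => v x i) G H :=
    ⟨hv, Real.sqrt_nonneg _, Real.sqrt_nonneg _, hG2.symm.le, hH2.symm.le⟩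
  have hc : Continuous fun x => Real.sqrt (gradSq v x) :=
    Real.continuous_sqrt.comp (sp_gradSq hv).cont
  have hnorm : eLpNorm (fun x => Real.sqrt (gradSq v x)) 2 (volume.restrict cube)
      ≤ ENNReal.ofReal G := by
    rw [eLpNorm_two hc]
    refine ENNReal.ofReal_le_ofReal ?_
    unfold nrm
    refine Real.sqrt_le_sqrt (le_of_eq ?_)
    rw [← int_gradSq hv]
    congr 1
    funext x
    exact Real.sq_sqrt (gradSq_nonneg _ _)
  obtain ⟨i1, b1⟩ := hC (fun x => Real.sqrt (gradSq v x)) v G H G hc.aestronglyMeasurable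
    (Real.sqrt_nonneg _) hnorm ha
  have hth : th 2 = 3 / 2 := by
    unfold th
    rw [ENNReal.toReal_inv]
    norm_num
  rw [hth] at b1
  have h1 := cub_eq_stretch hv hdiv
  have h2 : ∫ x in cube, stretchRate v x ≤ ∫ x in cube, 2 * (Real.sqrt (gradSq v x) * gradSq v x) := by
    refine integral_mono (sp_stretchRate hv).int (i1.const_mul 2) fun x => ?_
    have h3 := (le_abs_self _).trans (stretch_le v x)
    have h4 := vsq_le v x
    have h5 := Real.sqrt_nonneg (gradSq v x)
    show stretchRate v x ≤ 2 * (Real.sqrt (gradSq v x) * gradSq v x)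
    nlinarith
  rw [integral_const_mul] at h2
  have b1' : ∫ x in cube, Real.sqrt (gradSq v x) * gradSq v x
      ≤ C * (G * (G ^ (2 - 3 / 2 : ℝ) * H ^ (3 / 2 : ℝ))) := b1
  linarith

theorem sqrt_sqrt_le {a b : ℝ} (ha : 0 ≤ a) (hb : 0 ≤ b) :
    Real.sqrt (Real.sqrt (a * b ^ 3)) ≤ a + b := by
  have h1 : a * b ^ 3 ≤ ((a + b) ^ 2) ^ 2 := by
    have : b ^ 3 ≤ (a + b) ^ 3 := pow_le_pow_left₀ hb (by linarith) 3
    calc a * b ^ 3 ≤ (a + b) * (a + b) ^ 3 :=
          mul_le_mul (by linarith) this (by positivity) (by positivity)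
      _ = ((a + b) ^ 2) ^ 2 := by ring
  have h2 : Real.sqrt (a * b ^ 3) ≤ (a + b) ^ 2 := by
    rw [← Real.sqrt_sq (sq_nonneg (a + b))]
    exact Real.sqrt_le_sqrt h1
  rw [← Real.sqrt_sq (by positivity : (0 : ℝ) ≤ a + b)]
  exact Real.sqrt_le_sqrt h2

/-- The maximum of the velocity is integrable in time. -/
theorem fgt {ν T : ℝ} {u : ℝ → V → V} {p : ℝ → V → ℝ} (h : IsSol ν T u p) (hν : 0 < ν) :
    ∃ U : ℝ → ℝ, IntegrableOn U (Ioo 0 T) ∧ ∀ t ∈ Ioo 0 T, 0 ≤ U t ∧
      ∀ x, ∑ i, u t x i ^ 2 ≤ U t ^ 2 := by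
  rcases le_or_gt T 0 with hT | hT
  · exact ⟨fun _ => 0, by simp [Ioo_eq_empty (not_lt.2 hT)], fun t ht =>
      absurd (ht.1.trans ht.2) (not_lt.2 hT)⟩
  obtain ⟨C, hC0, hC⟩ := prod_cube
  obtain ⟨D, hD0, hD⟩ := young2 (θ := 3 / 2) (ε := ν) (c := C) (by norm_num) (by norm_num)
    hν hC0
  set y : ℝ → ℝ := fun s => enstrophy (u s) with hy
  set P : ℝ → ℝ := fun s => palin (u s) with hP
  have hy0 : ∀ s, 0 ≤ y s := fun s => enstrophy_nonneg _
  have hP0 : ∀ s, 0 ≤ P s := fun s => palin_nonneg _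
  have hE0 := energy_nonneg (u 0)
  set a : ℝ → ℝ := fun s => (1 + P s) / (1 + y s) ^ 2 with ha
  set b : ℝ → ℝ := fun s => 1 + y s with hb
  have hyC : ContinuousOn y (Ico 0 T) := h.enstrophy_continuousOn
  have hPC : ContinuousOn P (Ico 0 T) := h.palin_continuousOn
  have hpos : ∀ s, 0 < 1 + y s := fun s => by linarith [hy0 s]
  have hbC : ContinuousOn b (Ico 0 T) := continuousOn_const.add hyC
  have haC : ContinuousOn a (Ico 0 T) :=
    (continuousOn_const.add hPC).div (hbC.pow 2) fun s _ => (pow_pos (hpos s) 2).ne'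
  -- the differential inequality
  have hder : ∀ s ∈ Ioo 0 T, (-(2 * ν * palin (u s)) - 2 * cub (fun i y => u s y i)) / (1 + y s) ^ 2
      ≤ -(ν * (P s / (1 + y s) ^ 2)) + D * y s := by
    intro s hs
    have hI : s ∈ Ico 0 T := ⟨hs.1.le, hs.2⟩
    have h1 := hC (u s) (fun i => h.sp hI i) (h.divfree s hI)
    have h2 := hD (Real.sqrt (y s)) (Real.sqrt (y s)) (Real.sqrt (P s)) (Real.sqrt_nonneg _)
      (Real.sqrt_nonneg _) (Real.sqrt_nonneg _)
    have h3 : Real.sqrt (y s) ^ (2 / (2 - 3 / 2) : ℝ) * Real.sqrt (y s) ^ 2 = y s ^ 3 := by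
      have e1 : (2 / (2 - 3 / 2) : ℝ) = ((4 : ℕ) : ℝ) := by norm_num
      rw [e1, Real.rpow_natCast, Real.sq_sqrt (hy0 s)]
      calc Real.sqrt (y s) ^ 4 * y s = (Real.sqrt (y s) ^ 2) ^ 2 * y s := by ring
        _ = y s ^ 3 := by rw [Real.sq_sqrt (hy0 s)]; ring
    rw [h3, Real.sq_sqrt (hP0 s)] at h2
    have h4 : -(2 * ν * palin (u s)) - 2 * cub (fun i y => u s y i) ≤ -(ν * P s) + D * y s ^ 3 := by
      have h1' : -(2 * cub (fun i y => u s y i)) ≤ ν * P s + D * y s ^ 3 := h1.trans h2
      show -(2 * ν * P s) - 2 * cub (fun i y => u s y i) ≤ -(ν * P s) + D * y s ^ 3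
      linarith
    have h5 : 0 < (1 + y s) ^ 2 := pow_pos (hpos s) 2
    rw [div_le_iff₀ h5]
    refine h4.trans ?_
    have h6 : (-(ν * (P s / (1 + y s) ^ 2)) + D * y s) * (1 + y s) ^ 2
        = -(ν * P s) + D * (y s * (1 + y s) ^ 2) := by
      have e7 : P s / (1 + y s) ^ 2 * (1 + y s) ^ 2 = P s := div_mul_cancel₀ _ h5.ne'
      calc (-(ν * (P s / (1 + y s) ^ 2)) + D * y s) * (1 + y s) ^ 2
          = -(ν * (P s / (1 + y s) ^ 2 * (1 + y s) ^ 2)) + D * (y s * (1 + y s) ^ 2) := by ring
        _ = _ := by rw [e7]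
    rw [h6]
    have h7 : y s ^ 3 ≤ y s * (1 + y s) ^ 2 := by
      have := hy0 s
      nlinarith [mul_nonneg this this]
    have h8 := mul_le_mul_of_nonneg_left h7 hD0
    linarith
  -- the integral of `P / (1 + y)²`
  set B : ℝ := (1 + D * (energy (u 0) / (2 * ν))) / ν with hB
  have hPint : ∀ t ∈ Ico 0 T, ∫ s in (0 : ℝ)..t, P s / (1 + y s) ^ 2 ≤ B := by
    intro t ht
    have hsub : Icc 0 t ⊆ Ico 0 T := fun s hs => ⟨hs.1, hs.2.trans_lt ht.2⟩
    have hc : ContinuousOn (fun s => -(1 + y s)⁻¹) (Icc 0 t) :=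
      ((hbC.mono hsub).inv₀ fun s _ => (hpos s).ne').neg
    have hd : ∀ s ∈ Ioo 0 t, HasDerivWithinAt (fun s => -(1 + y s)⁻¹)
        ((-(2 * ν * palin (u s)) - 2 * cub (fun i y => u s y i)) / (1 + y s) ^ 2) (Ioi s) s := by
      intro s hs
      have h1 := ((h.enstrophy_hasDerivAt ⟨hs.1, hs.2.trans ht.2⟩).const_add 1).fun_inv
        (hpos s).ne'
      have h2 := h1.fun_neg
      rw [neg_div, neg_neg] at h2
      exact h2.hasDerivWithinAt
    have hPc : ContinuousOn (fun s => P s / (1 + y s) ^ 2) (Icc 0 t) :=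
      (hPC.mono hsub).div ((hbC.mono hsub).pow 2) fun s _ => (pow_pos (hpos s) 2).ne'
    have hgi : ContinuousOn (fun s => -(ν * (P s / (1 + y s) ^ 2)) + D * y s) (Icc 0 t) :=
      ((continuousOn_const.mul hPc).neg).add (continuousOn_const.mul (hyC.mono hsub))
    have h1 := intervalIntegral.sub_le_integral_of_hasDeriv_right_of_le ht.1 hc hd
      hgi.integrableOn_Icc (fun s hs => hder s ⟨hs.1, hs.2.trans ht.2⟩)
    have i1 : IntervalIntegrable (fun s => P s / (1 + y s) ^ 2) volume 0 t :=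
      hPc.intervalIntegrable_of_Icc ht.1
    have i2 : IntervalIntegrable y volume 0 t := (hyC.mono hsub).intervalIntegrable_of_Icc ht.1
    have i3 : IntervalIntegrable (fun s => -(ν * (P s / (1 + y s) ^ 2))) volume 0 t :=
      (i1.const_mul ν).neg
    rw [intervalIntegral.integral_add i3 (i2.const_mul D),
      intervalIntegral.integral_neg, intervalIntegral.integral_const_mul,
      intervalIntegral.integral_const_mul] at h1
    have h2 := h.int_enstrophy hν ht
    have h3 : 0 ≤ (1 + y t)⁻¹ := (inv_pos.2 (hpos t)).le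
    have h4 : (1 + y 0)⁻¹ ≤ 1 := inv_le_one_of_one_le₀ (by linarith [hy0 0])
    have h6 : (1 + y t)⁻¹ ≤ 1 := inv_le_one_of_one_le₀ (by linarith [hy0 t])
    have h5 : D * ∫ s in (0 : ℝ)..t, y s ≤ D * (energy (u 0) / (2 * ν)) :=
      mul_le_mul_of_nonneg_left h2 hD0
    have h7 : 0 ≤ (1 + y 0)⁻¹ := (inv_pos.2 (hpos 0)).le
    rw [hB, le_div_iff₀ hν]
    linarith
  refine ⟨fun s => 2 * (Real.sqrt (energy (u 0)) + 41 * (a s + b s)), ?_, fun t ht => ?_⟩
  · -- integrability
    have hUC : ContinuousOn (fun s => 2 * (Real.sqrt (energy (u 0)) + 41 * (a s + b s))) (Ico 0 T) :=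
      continuousOn_const.mul (continuousOn_const.add (continuousOn_const.mul (haC.add hbC)))
    have hbn : ∀ n : ℕ, T - T / (n + 1) ∈ Ico 0 T := by
      intro n
      have h1 : 0 < (n : ℝ) + 1 := by positivity
      have h2 : T / (n + 1) ≤ T := div_le_self hT.le (by linarith [(Nat.cast_nonneg n : (0 : ℝ) ≤ n)])
      have h3 : 0 < T / (n + 1) := by positivity
      exact ⟨by linarith, by linarith⟩
    have hlim : Tendsto (fun n : ℕ => T - T / (n + 1)) atTop (𝓝 T) := by
      have h1 : Tendsto (fun n : ℕ => T * (1 / ((n : ℝ) + 1))) atTop (𝓝 (T * 0)) :=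
        tendsto_const_nhds.mul tendsto_one_div_add_atTop_nhds_zero_nat
      have h2 := (tendsto_const_nhds (x := T)).sub h1
      rw [mul_zero, sub_zero] at h2
      refine h2.congr fun n => ?_
      rw [mul_one_div]
    rw [← integrableOn_Ioc_iff_integrableOn_Ioo]
    refine integrableOn_Ioc_of_intervalIntegral_norm_bounded_right (l := atTop)
      (I := 2 * (Real.sqrt (energy (u 0)) * T + 41 * (T + B + (T + energy (u 0) / (2 * ν)))))
      (a := 0) (b := fun n : ℕ => T - T / (n + 1)) (fun n => ?_) hlim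
      (Eventually.of_forall fun n => ?_)
    · have hsub : Icc 0 (T - T / (n + 1)) ⊆ Ico 0 T :=
        fun s hs => ⟨hs.1, hs.2.trans_lt (hbn n).2⟩
      exact ((hUC.mono hsub).integrableOn_Icc).mono_set Ioc_subset_Icc_self
    · set t := T - T / ((n : ℝ) + 1) with ht'
      have ht := hbn n
      rw [← ht'] at ht
      have hsub : Icc 0 t ⊆ Ico 0 T := fun s hs => ⟨hs.1, hs.2.trans_lt ht.2⟩
      have ha0 : ∀ s, 0 ≤ a s := fun s => by
        simp only [ha]
        have := hP0 s
        have := (hpos s).le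
        positivity
      have hb0 : ∀ s, 0 ≤ b s := fun s => (hpos s).le
      have e1 : ∀ s, ‖2 * (Real.sqrt (energy (u 0)) + 41 * (a s + b s))‖
          = 2 * (Real.sqrt (energy (u 0)) + 41 * (a s + b s)) := by
        intro s
        rw [Real.norm_eq_abs, abs_of_nonneg]
        have := ha0 s
        have := hb0 s
        positivity
      simp_rw [e1]
      have ia : IntervalIntegrable a volume 0 t := (haC.mono hsub).intervalIntegrable_of_Icc ht.1
      have ib : IntervalIntegrable b volume 0 t := (hbC.mono hsub).intervalIntegrable_of_Icc ht.1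
      rw [← intervalIntegral.integral_of_le ht.1, intervalIntegral.integral_const_mul,
        intervalIntegral.integral_add intervalIntegrable_const ((ia.add ib).const_mul _),
        intervalIntegral.integral_const, intervalIntegral.integral_const_mul,
        intervalIntegral.integral_add ia ib]
      have hPc : ContinuousOn (fun s => P s / (1 + y s) ^ 2) (Icc 0 t) :=
        (hPC.mono hsub).div ((hbC.mono hsub).pow 2) fun s _ => (pow_pos (hpos s) 2).ne'
      have b1 : ∫ s in (0 : ℝ)..t, a s ≤ T + B := by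
        have h1 : ∫ s in (0 : ℝ)..t, a s ≤ ∫ s in (0 : ℝ)..t, (1 + P s / (1 + y s) ^ 2) := by
          refine intervalIntegral.integral_mono_on ht.1 ia
            (intervalIntegrable_const.add (hPc.intervalIntegrable_of_Icc ht.1)) fun s _ => ?_
          simp only [ha]
          rw [add_div]
          have : 1 / (1 + y s) ^ 2 ≤ 1 := by
            rw [div_le_one (pow_pos (hpos s) 2)]
            exact one_le_pow₀ (by linarith [hy0 s])
          linarith
        rw [intervalIntegral.integral_add intervalIntegrable_const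
          (hPc.intervalIntegrable_of_Icc ht.1), intervalIntegral.integral_const] at h1
        have h2 := hPint t ht
        have h3 : (t - 0) • (1 : ℝ) = t := by simp
        rw [h3] at h1
        linarith [ht.2]
      have b2 : ∫ s in (0 : ℝ)..t, b s ≤ T + energy (u 0) / (2 * ν) := by
        simp only [hb]
        rw [intervalIntegral.integral_add intervalIntegrable_const
          ((hyC.mono hsub).intervalIntegrable_of_Icc ht.1), intervalIntegral.integral_const]
        have h2 := h.int_enstrophy hν ht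
        have h3 : (t - 0) • (1 : ℝ) = t := by simp
        rw [h3]
        linarith [ht.2]
      have b3 : (t - 0) • Real.sqrt (energy (u 0)) ≤ Real.sqrt (energy (u 0)) * T := by
        rw [sub_zero, smul_eq_mul, mul_comm]
        exact mul_le_mul_of_nonneg_left ht.2.le (Real.sqrt_nonneg _)
      linarith
  · have hI : t ∈ Ico 0 T := ⟨ht.1.le, ht.2⟩
    have ha0 : 0 ≤ a t := by
      simp only [ha]
      have := hP0 t
      have := (hpos t).le
      positivity
    have hb0 : 0 ≤ b t := (hpos t).le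
    have hS0 : 0 ≤ Real.sqrt (energy (u 0)) + 41 * (a t + b t) := by positivity
    refine ⟨by positivity, fun x => ?_⟩
    have hi : ∀ i, |u t x i| ≤ Real.sqrt (energy (u 0)) + 41 * (a t + b t) := by
      intro i
      have h1 : grd (fun y => u t y i) ≤ Real.sqrt (1 + y t) := by
        unfold grd
        refine Real.sqrt_le_sqrt ?_
        have : ∑ j, ∫ x in cube, pd j (fun y => u t y i) x ^ 2 ≤ y t :=
          Finset.single_le_sum (f := fun i => ∑ j, ∫ x in cube, pd j (fun y => u t y i) x ^ 2)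
            (fun _ _ => Finset.sum_nonneg fun _ _ => integral_nonneg fun _ => sq_nonneg _)
            (Finset.mem_univ i)
        linarith
      have h2 : nrm (lap fun y => u t y i) ≤ Real.sqrt (1 + P t) := by
        unfold nrm
        refine Real.sqrt_le_sqrt ?_
        have : ∫ x in cube, lap (fun y => u t y i) x ^ 2 ≤ P t :=
          Finset.single_le_sum (f := fun i => ∫ x in cube, lap (fun y => u t y i) x ^ 2)
            (fun _ _ => integral_nonneg fun _ => sq_nonneg _) (Finset.mem_univ i)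
        linarith
      have h3 : nrm (fun y => u t y i) ≤ Real.sqrt (energy (u 0)) := by
        unfold nrm
        refine Real.sqrt_le_sqrt (le_trans ?_ (h.energy_le hν hI))
        exact Finset.single_le_sum (f := fun i => ∫ x in cube, u t x i ^ 2)
          (fun _ _ => integral_nonneg fun _ => sq_nonneg _) (Finset.mem_univ i)
      have h4 := agmon (h.sp hI i) (Real.sqrt_pos.2 (hpos t))
        (Real.sqrt_pos.2 (by linarith [hP0 t] : (0 : ℝ) < 1 + P t)) h1 h2 x
      have h5 : Real.sqrt (Real.sqrt (1 + y t) * Real.sqrt (1 + P t)) ≤ a t + b t := by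
        rw [← Real.sqrt_mul (hpos t).le]
        refine le_trans (Real.sqrt_le_sqrt (Real.sqrt_le_sqrt (le_of_eq ?_)))
          (sqrt_sqrt_le ha0 hb0)
        simp only [ha, hb]
        have := (hpos t).ne'
        field_simp
      linarith
    have hsq : ∀ i, u t x i ^ 2 ≤ (Real.sqrt (energy (u 0)) + 41 * (a t + b t)) ^ 2 := by
      intro i
      rw [← sq_abs (u t x i)]
      exact pow_le_pow_left₀ (abs_nonneg _) (hi i) 2
    rw [Fin.sum_univ_three]
    have e : (2 * (Real.sqrt (energy (u 0)) + 41 * (a t + b t))) ^ 2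
        = 4 * (Real.sqrt (energy (u 0)) + 41 * (a t + b t)) ^ 2 := by ring
    show u t x 0 ^ 2 + u t x 1 ^ 2 + u t x 2 ^ 2
      ≤ (2 * (Real.sqrt (energy (u 0)) + 41 * (a t + b t))) ^ 2
    rw [e]
    have := hsq 0
    have := hsq 1
    have := hsq 2
    have := sq_nonneg (Real.sqrt (energy (u 0)) + 41 * (a t + b t))
    linarith

end Pool.Agent.X6.VA
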