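import Pool.Agent.X6.VA.Var
import Pool.Agent.X6.VA.Fgt

/-!
The criteria.
-/

open MeasureTheory Set Filter Topology
open scoped ContDiff ENNReal NNReal
open H459R3.NS Pool.Agent.W268.NS Pool.Agent.GR.Flow Pool.Agent.TH811.SPD

set_option autoImplicit false

namespace Pool.Agent.X6.VA

/-- Means along the trajectories of a divergence-free field `w`: outside an open periodic set `Ω` the
excess is at most `M |∇v|²`, and in `Ω` it is not positive in the mean over the arcs of almost all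
trajectories of `w` in `Ω`. -/
def MeansAlong (κ ν M : ℝ) (f : V → ℝ) (v : V → V) : Prop :=
  ∃ (w : V → V) (Ω : Set V), SPV w ∧ (∀ x, ∑ i, pd i (fun y => w y i) x = 0) ∧ IsOpen Ω ∧
    (∀ (i : Fin 3) (x : V), x + Pi.single i 1 ∈ Ω ↔ x ∈ Ω) ∧
    ∀ᵐ x ∂(volume.restrict cube), (x ∉ Ω → exc κ ν f v x ≤ M * gradSq v x) ∧
      ∀ X : ℝ → V, IsCurve w X → X 0 = x → ArcsIn Ω (exc κ ν f v) X

/-- Lengths of vortex lines: for all levels `lam > M`, the arcs of almost all vortex lines on which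
`|ω| > lam` do not grow more than admitted; the integral of `stretchRate / |ω|` over an arc
(the parameter being that of the trajectories of `ω`) is the rate of change of its length. -/
def ArcLengths (κ ν M : ℝ) (f : V → ℝ) (v : V → V) : Prop :=
  ∀ᵐ x ∂(volume.restrict cube), ∀ X : ℝ → V, IsCurve (vort v) X → X 0 = x →
    ∀ lam : ℝ, M < lam → ArcsIn {y | lam < vabs v y} (fun y => exc κ ν f v y / vabs v y) X

/-- Slow variation of the vorticity along the vortex lines, in the mean over the arcs on which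
`|ω| > M`. -/
def SlowVariation (M K : ℝ) (v : V → V) : Prop :=
  ∀ᵐ x ∂(volume.restrict cube), ∀ X : ℝ → V, IsCurve (vort v) X → X 0 = x →
    VarIn {y | M < vabs v y} M K v X

section

variable {v : V → V} (hv : ∀ i, SP (fun y => v y i))

include hv in
theorem cond_prod (hdiv : ∀ x, ∑ i, pd i (fun y => v y i) x = 0) {f : V → ℝ}
    (hfm : Measurable f) (hfp : Per f) (hf0 : ∀ x, 0 ≤ f x) (hfi : IntegrableOn f cube)
    {κ ν M : ℝ} (hκ : 0 ≤ κ * ν) (hM : 0 ≤ M)
    (h : MeansAlong κ ν M f v ∨ ArcLengths κ ν M f v) :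
    ∫ x in cube, stretchRate v x
      ≤ (∫ x in cube, f x * vsq v x) + κ * ν * palin v + 2 * M * enstrophy v := by
  have hE := enstrophy_nonneg v
  rcases h with h | h
  · obtain ⟨w, Ω, hw, hdw, hΩo, hΩp, hx⟩ := h
    have hw' : ∀ i, SP (fun y => w y i) := fun i => hw.sp i
    have h1 := prod_arcs hv hdiv hw' hdw hfm hfp hf0 hfi hκ hM hΩo hΩp
      (hx.mono fun x hx => hx.1) (hx.mono fun x hx => hx.2)
    have h2 : 0 ≤ M * enstrophy v := mul_nonneg hM hE
    linarith
  · refine prod_len hv hdiv hfm hfp hf0 hfi hκ hM fun lam hlam => ?_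
    filter_upwards [h] with x hx X hX hX0
    exact hx X hX hX0 lam hlam

include hv in
theorem var_prod (hdiv : ∀ x, ∑ i, pd i (fun y => v y i) x = 0) {M K U : ℝ} (hM : 0 ≤ M)
    (hK : 0 ≤ K) (hU0 : 0 ≤ U) (hU : ∀ x, ∑ i, v x i ^ 2 ≤ U ^ 2) (h : SlowVariation M K v) :
    ∫ x in cube, stretchRate v x ≤ (2 * M + 2 * (U * K)) * enstrophy v := by
  have hfin := cube_finite
  have hac := vabs_cont hv
  have h1 := prod_arcs hv hdiv (w := vort v) (fun i => sp_vort hv i) (div_vort hv)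
    (f := fun _ => U * K) measurable_const (fun _ _ => rfl) (fun _ => by positivity)
    (integrable_const _) (κ := 0) (ν := 0) (M := 2 * M) (by simp) (by positivity)
    (Ω := {y | M < vabs v y}) (isOpen_lt continuous_const hac)
    (fun i x => by simp only [mem_ofPred_eq, vabs_per hv i x])
    (Filter.Eventually.of_forall fun x hx => by
      have h2 : vabs v x ≤ M := not_lt.1 hx
      have h3 := low_le hM v x h2
      have h4 : exc 0 0 (fun _ => U * K) v x ≤ stretchRate v x :=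
        exc_le (by simp) (fun _ => by positivity) v x
      linarith)
    (by
      filter_upwards [h] with x hx X hX hX0
      exact arcsIn_of_varIn hv hU0 hU hX (hx X hX hX0))
  have h5 : ∫ x in cube, U * K * vsq v x ≤ ∫ x in cube, 2 * (U * K) * gradSq v x := by
    refine integral_mono ((sp_vsq hv).int.const_mul _) ((sp_gradSq hv).int.const_mul _)
      fun x => ?_
    have h6 := vsq_le v x
    have h7 : 0 ≤ U * K := by positivity
    show U * K * vsq v x ≤ 2 * (U * K) * gradSq v x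
    nlinarith
  rw [integral_const_mul (2 * (U * K)), int_gradSq hv] at h5
  have h8 : (0 : ℝ) * 0 * palin v = 0 := by ring
  rw [h8] at h1
  linarith

end

/-- The criteria. -/
theorem final {p : ℝ≥0∞} (hp : 3 / 2 < p) {q : ℝ} (hpq : 3 * (p⁻¹).toReal + 2 / q = 2)
    {ν κ : ℝ} (hν : 0 < ν) (hκ0 : 0 ≤ κ) (hκ : κ < 1) :
    (∃ C : ℝ, 0 ≤ C ∧ ∀ (T : ℝ) (u : ℝ → V → V) (P : ℝ → V → ℝ) (β M : ℝ → ℝ), IsSol ν T u P →
      IntegrableOn (fun t => β t ^ q) (Ioo 0 T) → IntegrableOn M (Ioo 0 T) →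
      (∀ᵐ t ∂(volume.restrict (Ioo 0 T)), 0 ≤ β t ∧ 0 ≤ M t ∧ ∃ f : V → ℝ, Measurable f ∧
        Per f ∧ (∀ x, 0 ≤ f x) ∧ eLpNorm f p (volume.restrict cube) ≤ ENNReal.ofReal (β t) ∧
        (MeansAlong κ ν (M t) f (u t) ∨ ArcLengths κ ν (M t) f (u t))) →
      (∀ t ∈ Ico 0 T, enstrophy (u t) ≤ enstrophy (u 0) * Real.exp
        (C * ((∫ τ in Ioo 0 T, β τ ^ q) + ∫ τ in Ioo 0 T, M τ))) ∧
      ∃ B, ∀ t ∈ Ico 0 T, ∀ x i, |u t x i| ≤ B) ∧
    ∀ (T K : ℝ) (u : ℝ → V → V) (P : ℝ → V → ℝ) (β M : ℝ → ℝ), 0 ≤ K → IsSol ν T u P →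
      IntegrableOn (fun t => β t ^ q) (Ioo 0 T) → IntegrableOn M (Ioo 0 T) →
      (∀ᵐ t ∂(volume.restrict (Ioo 0 T)), 0 ≤ β t ∧ 0 ≤ M t ∧ (SlowVariation (M t) K (u t) ∨
        ∃ f : V → ℝ, Measurable f ∧ Per f ∧ (∀ x, 0 ≤ f x) ∧
          eLpNorm f p (volume.restrict cube) ≤ ENNReal.ofReal (β t) ∧
          (MeansAlong κ ν (M t) f (u t) ∨ ArcLengths κ ν (M t) f (u t)))) →
      ∃ B, ∀ t ∈ Ico 0 T, ∀ x i, |u t x i| ≤ B := by
  have hfin := cube_finite
  have hp1 : 1 ≤ p := by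
    refine le_trans ?_ hp.le
    rw [ENNReal.le_div_iff_mul_le (by norm_num) (by norm_num)]
    norm_num
  have hκν : 0 ≤ κ * ν := mul_nonneg hκ0 hν.le
  obtain ⟨C, hC0, hC⟩ := crit_int hp hpq hν hκ0 hκ
  have habs : ∀ (f : V → ℝ) (v : V → V), (∀ x, 0 ≤ f x) →
      ∫ x in cube, f x * vsq v x = ∫ x in cube, |f x| * vsq v x := by
    intro f v hf
    congr 1
    funext x
    rw [abs_of_nonneg (hf x)]
  have hfi : ∀ (f : V → ℝ) (b : ℝ), Measurable f →
      eLpNorm f p (volume.restrict cube) ≤ ENNReal.ofReal b → IntegrableOn f cube := by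
    intro f b hf hb
    have : MemLp f p (volume.restrict cube) :=
      ⟨hf.aestronglyMeasurable, hb.trans_lt ENNReal.ofReal_lt_top⟩
    exact this.integrable hp1
  refine ⟨⟨2 * C, by positivity, fun T u P β M h hβi hMi hcond => ?_⟩,
    fun T K u P β M hK h hβi hMi hcond => ?_⟩
  · have h1 := hC T u P β (fun t => 2 * M t) h hβi (hMi.const_mul 2) (by
      filter_upwards [hcond, ae_restrict_mem measurableSet_Ioo] with t ht htI
      obtain ⟨hβ0, hM0, f, hfm, hfp, hf0, hfβ, hor⟩ := ht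
      have hI : t ∈ Ico 0 T := ⟨htI.1.le, htI.2⟩
      refine ⟨hβ0, by positivity, f, hfm.aestronglyMeasurable, hfβ, ?_⟩
      rw [← habs f (u t) hf0]
      exact cond_prod (fun i => h.sp hI i) (h.divfree t hI) hfm hfp hf0 (hfi f _ hfm hfβ) hκν
        hM0 hor)
    refine ⟨fun t ht => (h1.1 t ht).trans ?_, h1.2⟩
    refine mul_le_mul_of_nonneg_left (Real.exp_le_exp.2 ?_) (enstrophy_nonneg _)
    rw [integral_const_mul]
    have b1 : 0 ≤ ∫ τ in Ioo 0 T, β τ ^ q := by
      refine integral_nonneg_of_ae ?_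
      filter_upwards [hcond] with s hs
      exact Real.rpow_nonneg hs.1 q
    nlinarith [mul_nonneg hC0 b1]
  · obtain ⟨U, hUi, hU⟩ := fgt h hν
    refine (hC T u P β (fun t => 2 * M t + 2 * (U t * K)) h hβi
      ((hMi.const_mul 2).add ((hUi.mul_const K).const_mul 2)) ?_).2
    filter_upwards [hcond, ae_restrict_mem measurableSet_Ioo] with t ht htI
    obtain ⟨hβ0, hM0, hor⟩ := ht
    have hI : t ∈ Ico 0 T := ⟨htI.1.le, htI.2⟩
    obtain ⟨hU0, hUx⟩ := hU t htI
    have hUK : 0 ≤ U t * K := mul_nonneg hU0 hK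
    have hE := enstrophy_nonneg (u t)
    refine ⟨hβ0, by positivity, ?_⟩
    rcases hor with hor | ⟨f, hfm, hfp, hf0, hfβ, hor⟩
    · refine ⟨fun _ => 0, aestronglyMeasurable_const, by simp, ?_⟩
      have h2 := var_prod (fun i => h.sp hI i) (h.divfree t hI) hM0 hK hU0 hUx hor
      have h3 : 0 ≤ κ * ν * palin (u t) := mul_nonneg hκν (palin_nonneg _)
      simp only [abs_zero, zero_mul, integral_zero]
      linarith
    · refine ⟨f, hfm.aestronglyMeasurable, hfβ, ?_⟩
      rw [← habs f (u t) hf0]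
      have h2 := cond_prod (fun i => h.sp hI i) (h.divfree t hI) hfm hfp hf0 (hfi f _ hfm hfβ)
        hκν hM0 hor
      have h3 : 0 ≤ 2 * (U t * K) * enstrophy (u t) := by positivity
      linarith

end Pool.Agent.X6.VA
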