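import Pool.Agent.W268.NS.Fin

/-!
The enstrophy production, the vorticity and its gradient; an integrated regularity criterion.
-/

open MeasureTheory Set Filter Topology
open scoped ContDiff ENNReal NNReal
open H459R3.NS Pool.Agent.W268.NS

set_option autoImplicit false

namespace Pool.Agent.X6.VA

/-- `|ω|²`, where `ω` is the curl of `v` -/
noncomputable def vsq (v : V → V) (x : V) : ℝ := ∑ j, vort v x j ^ 2

/-- `|∇ω|²`, where `ω` is the curl of `v` -/
noncomputable def vgrad (v : V → V) (x : V) : ℝ :=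
  ∑ i, ∑ j, pd i (fun y => vort v y j) x ^ 2

section

variable {v : V → V} (hv : ∀ i, SP (fun y => v y i))

include hv in
theorem sp_vsq : SP (vsq v) := by
  have : vsq v = fun x => ∑ j, vort v x j * vort v x j := by
    funext x
    exact Finset.sum_congr rfl fun j _ => sq _
  rw [this]
  exact SP.sum fun j _ => (sp_vort hv j).mul (sp_vort hv j)

include hv in
theorem sp_vgrad : SP (vgrad v) := by
  have : vgrad v = fun x => ∑ i, ∑ j, pd i (fun y => vort v y j) x * pd i (fun y => vort v y j) x := by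
    funext x
    exact Finset.sum_congr rfl fun i _ => Finset.sum_congr rfl fun j _ => sq _
  rw [this]
  exact SP.sum fun i _ => SP.sum fun j _ => ((sp_vort hv j).pd i).mul ((sp_vort hv j).pd i)

theorem vsq_nonneg (v : V → V) (x : V) : 0 ≤ vsq v x := Finset.sum_nonneg fun _ _ => sq_nonneg _

theorem vgrad_nonneg (v : V → V) (x : V) : 0 ≤ vgrad v x :=
  Finset.sum_nonneg fun _ _ => Finset.sum_nonneg fun _ _ => sq_nonneg _

theorem gradSq_nonneg (v : V → V) (x : V) : 0 ≤ gradSq v x :=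
  Finset.sum_nonneg fun _ _ => Finset.sum_nonneg fun _ _ => sq_nonneg _

include hv in
theorem sp_gradSq : SP (gradSq v) := by
  have : gradSq v = fun x => ∑ i, ∑ j, gradM v x i j * gradM v x i j := by
    funext x
    exact Finset.sum_congr rfl fun i _ => Finset.sum_congr rfl fun j _ => sq _
  rw [this]
  exact SP.sum fun i _ => SP.sum fun j _ => (sp_grad hv i j).mul (sp_grad hv i j)

theorem vsq_le (v : V → V) (x : V) : vsq v x ≤ 2 * gradSq v x := by
  have h : vsq v x = (gradM v x 1 2 - gradM v x 2 1) ^ 2 + (gradM v x 2 0 - gradM v x 0 2) ^ 2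
      + (gradM v x 0 1 - gradM v x 1 0) ^ 2 := by
    simp [vsq, vort, Fin.sum_univ_three]
  have h2 : gradSq v x = gradM v x 0 0 ^ 2 + gradM v x 0 1 ^ 2 + gradM v x 0 2 ^ 2
      + (gradM v x 1 0 ^ 2 + gradM v x 1 1 ^ 2 + gradM v x 1 2 ^ 2)
      + (gradM v x 2 0 ^ 2 + gradM v x 2 1 ^ 2 + gradM v x 2 2 ^ 2) := by
    simp [gradSq, Fin.sum_univ_three]
  rw [h, h2]
  nlinarith [sq_nonneg (gradM v x 1 2 + gradM v x 2 1), sq_nonneg (gradM v x 2 0 + gradM v x 0 2),
    sq_nonneg (gradM v x 0 1 + gradM v x 1 0), sq_nonneg (gradM v x 0 0),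
    sq_nonneg (gradM v x 1 1), sq_nonneg (gradM v x 2 2)]

/-- `|ω · (ω · ∇) v| ≤ |ω|² |∇ v|` -/
theorem stretch_le (v : V → V) (x : V) :
    |stretchRate v x| ≤ vsq v x * Real.sqrt (gradSq v x) := by
  have h1 : stretchRate v x = ∑ p : Fin 3 × Fin 3, (vort v x p.1 * vort v x p.2) *
      gradM v x p.1 p.2 := by
    unfold stretchRate
    rw [Fintype.sum_prod_type]
    exact Finset.sum_congr rfl fun i _ => Finset.sum_congr rfl fun j _ => by ring
  have h2 := Finset.sum_mul_sq_le_sq_mul_sq Finset.univ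
    (fun p : Fin 3 × Fin 3 => vort v x p.1 * vort v x p.2) (fun p => gradM v x p.1 p.2)
  rw [← h1] at h2
  have h3 : ∑ p : Fin 3 × Fin 3, (vort v x p.1 * vort v x p.2) ^ 2 = vsq v x ^ 2 := by
    rw [Fintype.sum_prod_type, sq (vsq v x)]
    unfold vsq
    rw [Finset.sum_mul_sum]
    exact Finset.sum_congr rfl fun i _ => Finset.sum_congr rfl fun j _ => by ring
  have h4 : ∑ p : Fin 3 × Fin 3, gradM v x p.1 p.2 ^ 2 = gradSq v x := by
    rw [Fintype.sum_prod_type]
    rfl
  rw [h3, h4] at h2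
  refine abs_le_of_sq_le_sq ?_ (mul_nonneg (vsq_nonneg _ _) (Real.sqrt_nonneg _))
  rw [mul_pow, Real.sq_sqrt (gradSq_nonneg _ _)]
  exact h2

/-- The stretching where the vorticity is at most `M`. -/
theorem stretch_low {M : ℝ} (hM : 0 ≤ M) (v : V → V) (x : V) (h : vsq v x ≤ M ^ 2) :
    |stretchRate v x| ≤ 2 * M * gradSq v x := by
  refine (stretch_le v x).trans ?_
  have h1 : vsq v x = Real.sqrt (vsq v x) * Real.sqrt (vsq v x) :=
    (Real.mul_self_sqrt (vsq_nonneg _ _)).symm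
  have h2 : Real.sqrt (vsq v x) ≤ M := by
    rw [← Real.sqrt_sq hM]
    exact Real.sqrt_le_sqrt h
  have h3 : Real.sqrt (vsq v x) ≤ 2 * Real.sqrt (gradSq v x) := by
    have : (2 : ℝ) = Real.sqrt 4 := by
      rw [show (4 : ℝ) = 2 ^ 2 by norm_num, Real.sqrt_sq (by norm_num)]
    rw [this, ← Real.sqrt_mul (by norm_num)]
    refine Real.sqrt_le_sqrt ((vsq_le v x).trans ?_)
    have := gradSq_nonneg v x
    linarith
  have h4 : gradSq v x = Real.sqrt (gradSq v x) * Real.sqrt (gradSq v x) :=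
    (Real.mul_self_sqrt (gradSq_nonneg _ _)).symm
  have h5 := Real.sqrt_nonneg (gradSq v x)
  have h6 := Real.sqrt_nonneg (vsq v x)
  calc vsq v x * Real.sqrt (gradSq v x)
      = Real.sqrt (vsq v x) * Real.sqrt (vsq v x) * Real.sqrt (gradSq v x) := by rw [← h1]
    _ ≤ M * (2 * Real.sqrt (gradSq v x)) * Real.sqrt (gradSq v x) := by gcongr
    _ = 2 * M * (Real.sqrt (gradSq v x) * Real.sqrt (gradSq v x)) := by ring
    _ = 2 * M * gradSq v x := by rw [← h4]

/-- `∫ |curl w|² = ∫ |∇w|²` for divergence-free `w` -/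
theorem int_curl {w : Fin 3 → V → ℝ} (hw : ∀ i, SP (w i)) (hdiv : ∀ x, ∑ i, pd i (w i) x = 0) :
    ∫ x in cube, ((pd 1 (w 2) x - pd 2 (w 1) x) ^ 2 + (pd 2 (w 0) x - pd 0 (w 2) x) ^ 2
      + (pd 0 (w 1) x - pd 1 (w 0) x) ^ 2) = ∑ b, ∑ a, ∫ x in cube, pd a (w b) x ^ 2 := by
  have hsq : ∀ a b, IntegrableOn (fun x => pd a (w b) x ^ 2) cube := by
    intro a b
    have := (((hw b).pd a).mul ((hw b).pd a)).int
    refine this.congr (Filter.Eventually.of_forall fun x => ?_)
    simp only [sq]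
  have e1 : ∑ b, ∑ a, ∫ x in cube, pd a (w b) x ^ 2
      = ∫ x in cube, ∑ b, ∑ a, pd a (w b) x ^ 2 := by
    rw [integral_finsetSum _ fun b _ => integrable_finsetSum _ fun a _ => hsq a b]
    refine Finset.sum_congr rfl fun b _ => ?_
    rw [integral_finsetSum _ fun a _ => hsq a b]
  have i1 : IntegrableOn (fun x => ∑ b, ∑ a, pd a (w b) x ^ 2) cube :=
    integrable_finsetSum _ fun b _ => integrable_finsetSum _ fun a _ => hsq a b
  have m01 := int_minor (hw 0) (hw 1) 0 1
  have m02 := int_minor (hw 0) (hw 2) 0 2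
  have m12 := int_minor (hw 1) (hw 2) 1 2
  have s01 := (sp_minor (hw 0) (hw 1) 0 1).int
  have s02 := (sp_minor (hw 0) (hw 2) 0 2).int
  have s12 := (sp_minor (hw 1) (hw 2) 1 2).int
  have e2 : ∀ x, (pd 1 (w 2) x - pd 2 (w 1) x) ^ 2 + (pd 2 (w 0) x - pd 0 (w 2) x) ^ 2
      + (pd 0 (w 1) x - pd 1 (w 0) x) ^ 2 = ∑ b, ∑ a, pd a (w b) x ^ 2
      + 2 * ((pd 0 (w 0) x * pd 1 (w 1) x - pd 1 (w 0) x * pd 0 (w 1) x)
      + (pd 0 (w 0) x * pd 2 (w 2) x - pd 2 (w 0) x * pd 0 (w 2) x)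
      + (pd 1 (w 1) x * pd 2 (w 2) x - pd 2 (w 1) x * pd 1 (w 2) x)) := by
    intro x
    have h := hdiv x
    rw [Fin.sum_univ_three] at h
    have h' : pd 2 (w 2) x = -(pd 0 (w 0) x + pd 1 (w 1) x) := by linarith
    simp only [Fin.sum_univ_three]
    rw [h']
    ring
  simp_rw [e2]
  have s3 : IntegrableOn (fun x => 2 * ((pd 0 (w 0) x * pd 1 (w 1) x - pd 1 (w 0) x * pd 0 (w 1) x)
      + (pd 0 (w 0) x * pd 2 (w 2) x - pd 2 (w 0) x * pd 0 (w 2) x)
      + (pd 1 (w 1) x * pd 2 (w 2) x - pd 2 (w 1) x * pd 1 (w 2) x))) cube :=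
    ((s01.add s02).add s12).const_mul 2
  rw [e1, integral_add i1 s3, integral_const_mul]
  have e3 : ∫ x in cube, ((pd 0 (w 0) x * pd 1 (w 1) x - pd 1 (w 0) x * pd 0 (w 1) x)
      + (pd 0 (w 0) x * pd 2 (w 2) x - pd 2 (w 0) x * pd 0 (w 2) x)
      + (pd 1 (w 1) x * pd 2 (w 2) x - pd 2 (w 1) x * pd 1 (w 2) x)) = 0 := by
    have s4 : IntegrableOn (fun x => (pd 0 (w 0) x * pd 1 (w 1) x - pd 1 (w 0) x * pd 0 (w 1) x)
      + (pd 0 (w 0) x * pd 2 (w 2) x - pd 2 (w 0) x * pd 0 (w 2) x)) cube := s01.add s02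
    rw [integral_add s4 s12, integral_add s01 s02, m01, m02, m12]
    ring
  rw [e3, mul_zero, add_zero]

/-- `∫ |∇² f|² = ∫ |Δ f|²` -/
theorem int_hess {f : V → ℝ} (hf : SP f) :
    ∑ i, ∑ a, ∫ x in cube, pd a (pd i f) x ^ 2 = ∫ x in cube, lap f x ^ 2 := by
  have h1 : ∀ i, ∑ a, ∫ x in cube, pd a (pd i f) x ^ 2
      = -∫ x in cube, pd i (lap f) x * pd i f x := by
    intro i
    have h2 := int_lap_mul (hf.pd i) (hf.pd i)
    have h3 : lap (pd i f) = pd i (lap f) := by
      funext x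
      unfold lap
      rw [pd_sum (fun j _ => (hf.pd j).pd j) i x]
      refine Finset.sum_congr rfl fun j _ => ?_
      rw [pd_comm (hf.pd j) i j, pd_comm hf i j]
    rw [h3] at h2
    rw [h2, neg_neg]
    refine Finset.sum_congr rfl fun a _ => ?_
    congr 1
    funext x
    exact sq _
  simp_rw [h1]
  rw [Finset.sum_neg_distrib]
  have h4 := int_lap_mul hf hf.lap
  have h5 : ∫ x in cube, lap f x ^ 2 = ∫ x in cube, lap f x * lap f x := by
    congr 1
    funext x
    exact sq _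
  rw [h5, h4]
  congr 1
  refine Finset.sum_congr rfl fun j _ => ?_
  congr 1
  funext x
  ring

include hv in
/-- `∫ |∇ω|² = ∫ |Δv|²` -/
theorem int_vgrad (hdiv : ∀ x, ∑ i, pd i (fun y => v y i) x = 0) :
    ∫ x in cube, vgrad v x = palin v := by
  have hsp : ∀ i j, SP (fun x => pd i (fun y => vort v y j) x * pd i (fun y => vort v y j) x) :=
    fun i j => ((sp_vort hv j).pd i).mul ((sp_vort hv j).pd i)
  have hsq : ∀ i j, IntegrableOn (fun x => pd i (fun y => vort v y j) x ^ 2) cube := by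
    intro i j
    refine (hsp i j).int.congr (Filter.Eventually.of_forall fun x => ?_)
    simp only [sq]
  have hi : ∀ i, IntegrableOn (fun x => ∑ j, pd i (fun y => vort v y j) x ^ 2) cube :=
    fun i => integrable_finsetSum _ fun j _ => hsq i j
  have h1 : ∫ x in cube, vgrad v x
      = ∑ i, ∫ x in cube, ∑ j, pd i (fun y => vort v y j) x ^ 2 := by
    unfold vgrad
    rw [integral_finsetSum _ fun i _ => hi i]
  have h2 : ∀ i, ∫ x in cube, ∑ j, pd i (fun y => vort v y j) x ^ 2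
      = ∑ b, ∑ a, ∫ x in cube, pd a (pd i (fun y => v y b)) x ^ 2 := by
    intro i
    have hw : ∀ b, SP (pd i (fun y => v y b)) := fun b => (hv b).pd i
    have hd : ∀ x, ∑ b, pd b (pd i (fun y => v y b)) x = 0 := by
      intro x
      have e1 : (fun y => ∑ b, pd b (fun z => v z b) y) = fun _ => 0 := funext hdiv
      have e2 : ∀ b, pd b (pd i (fun y => v y b)) x = pd i (pd b (fun y => v y b)) x := by
        intro b
        rw [pd_comm (hv b) b i]
      simp_rw [e2]
      rw [← pd_sum (fun b _ => (hv b).pd b) i x, e1]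
      unfold pd; simp
    rw [← int_curl hw hd]
    congr 1
    funext x
    have c0 : pd i (fun y => vort v y 0) x
        = pd 1 (pd i (fun y => v y 2)) x - pd 2 (pd i (fun y => v y 1)) x := by
      have : (fun y => vort v y 0) = fun y => pd 1 (fun z => v z 2) y - pd 2 (fun z => v z 1) y := by
        funext y; rfl
      rw [this, pd_sub ((hv 2).pd 1) ((hv 1).pd 2), pd_comm (hv 2) i 1, pd_comm (hv 1) i 2]
    have c1 : pd i (fun y => vort v y 1) x
        = pd 2 (pd i (fun y => v y 0)) x - pd 0 (pd i (fun y => v y 2)) x := by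
      have : (fun y => vort v y 1) = fun y => pd 2 (fun z => v z 0) y - pd 0 (fun z => v z 2) y := by
        funext y; rfl
      rw [this, pd_sub ((hv 0).pd 2) ((hv 2).pd 0), pd_comm (hv 0) i 2, pd_comm (hv 2) i 0]
    have c2 : pd i (fun y => vort v y 2) x
        = pd 0 (pd i (fun y => v y 1)) x - pd 1 (pd i (fun y => v y 0)) x := by
      have : (fun y => vort v y 2) = fun y => pd 0 (fun z => v z 1) y - pd 1 (fun z => v z 0) y := by
        funext y; rfl
      rw [this, pd_sub ((hv 1).pd 0) ((hv 0).pd 1), pd_comm (hv 1) i 0, pd_comm (hv 0) i 1]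
    rw [Fin.sum_univ_three, c0, c1, c2]
  rw [h1]
  simp_rw [h2]
  rw [Finset.sum_comm]
  unfold palin
  refine Finset.sum_congr rfl fun b _ => ?_
  rw [int_hess (hv b)]

include hv in
/-- the divergence of the vorticity vanishes -/
theorem div_vort (x : V) : ∑ i, pd i (fun y => vort v y i) x = 0 := by
  have c0 : pd 0 (fun y => vort v y 0) x
      = pd 0 (pd 1 (fun y => v y 2)) x - pd 0 (pd 2 (fun y => v y 1)) x := by
    have : (fun y => vort v y 0) = fun y => pd 1 (fun z => v z 2) y - pd 2 (fun z => v z 1) y := by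
      funext y; rfl
    rw [this, pd_sub ((hv 2).pd 1) ((hv 1).pd 2)]
  have c1 : pd 1 (fun y => vort v y 1) x
      = pd 1 (pd 2 (fun y => v y 0)) x - pd 1 (pd 0 (fun y => v y 2)) x := by
    have : (fun y => vort v y 1) = fun y => pd 2 (fun z => v z 0) y - pd 0 (fun z => v z 2) y := by
      funext y; rfl
    rw [this, pd_sub ((hv 0).pd 2) ((hv 2).pd 0)]
  have c2 : pd 2 (fun y => vort v y 2) x
      = pd 2 (pd 0 (fun y => v y 1)) x - pd 2 (pd 1 (fun y => v y 0)) x := by
    have : (fun y => vort v y 2) = fun y => pd 0 (fun z => v z 1) y - pd 1 (fun z => v z 0) y := by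
      funext y; rfl
    rw [this, pd_sub ((hv 1).pd 0) ((hv 0).pd 1)]
  rw [Fin.sum_univ_three, c0, c1, c2, pd_comm (hv 2) 0 1, pd_comm (hv 1) 0 2, pd_comm (hv 0) 1 2]
  ring

end

end Pool.Agent.X6.VA
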