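import Pool.Agent.X6.VA.Arc
import Pool.Agent.X6.VA.Crit

/-!
Bounds of the enstrophy production from means along vortex lines.
-/

open MeasureTheory Set Filter Topology
open scoped ContDiff ENNReal NNReal
open H459R3.NS Pool.Agent.W268.NS Pool.Agent.GR.Flow Pool.Agent.TH811.SPD

set_option autoImplicit false

namespace Pool.Agent.X6.VA

/-- `X` is a trajectory of the vector field `w`. -/
def IsCurve (w : V → V) (X : ℝ → V) : Prop := ∀ r : ℝ, HasDerivAt X (w (X r)) r

/-- The excess `ω · (ω · ∇) v - f |ω|² - κ ν |∇ω|²`, `ω` being the curl of `v`. -/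
noncomputable def exc (κ ν : ℝ) (f : V → ℝ) (v : V → V) (x : V) : ℝ :=
  stretchRate v x - f x * vsq v x - κ * ν * vgrad v x

/-- `|ω|` -/
noncomputable def vabs (v : V → V) (x : V) : ℝ := Real.sqrt (vsq v x)

theorem sp_bound {h : V → ℝ} (hh : SP h) : ∃ C : ℝ, 0 ≤ C ∧ ∀ x, |h x| ≤ C := by
  obtain ⟨C, hC⟩ := per_bound hh.per hh.cont
  exact ⟨C, C.2, fun x => by simpa using hC x⟩

section

variable {v : V → V} (hv : ∀ i, SP (fun y => v y i)) {f : V → ℝ}

include hv in
theorem exc_meas (hf : Measurable f) (κ ν : ℝ) : Measurable (exc κ ν f v) :=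
  ((sp_stretchRate hv).cont.measurable.sub (hf.mul (sp_vsq hv).cont.measurable)).sub
    ((sp_vgrad hv).cont.measurable.const_mul _)

include hv in
theorem exc_per (hf : Per f) (κ ν : ℝ) : Per (exc κ ν f v) := by
  intro i x
  unfold exc
  rw [(sp_stretchRate hv).per i x, hf i x, (sp_vsq hv).per i x, (sp_vgrad hv).per i x]

include hv in
theorem fv_int (hf : IntegrableOn f cube) : IntegrableOn (fun x => f x * vsq v x) cube := by
  obtain ⟨C, -, hC⟩ := sp_bound (sp_vsq hv)
  exact Integrable.mul_bdd (c := C) hf (sp_vsq hv).cont.aestronglyMeasurable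
    (ae_of_all _ fun x => hC x)

include hv in
theorem exc_int (hf : IntegrableOn f cube) (κ ν : ℝ) : IntegrableOn (exc κ ν f v) cube :=
  ((sp_stretchRate hv).int.sub (fv_int hv hf)).sub ((sp_vgrad hv).int.const_mul _)

include hv in
theorem exc_integral (hdiv : ∀ x, ∑ i, pd i (fun y => v y i) x = 0) (hf : IntegrableOn f cube)
    (κ ν : ℝ) : ∫ x in cube, exc κ ν f v x
      = (∫ x in cube, stretchRate v x) - (∫ x in cube, f x * vsq v x) - κ * ν * palin v := by
  have h1 : IntegrableOn (fun x => stretchRate v x - f x * vsq v x) cube :=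
    (sp_stretchRate hv).int.sub (fv_int hv hf)
  unfold exc
  rw [integral_sub h1 ((sp_vgrad hv).int.const_mul _),
    integral_sub (sp_stretchRate hv).int (fv_int hv hf), integral_const_mul, int_vgrad hv hdiv]

theorem exc_le {κ ν : ℝ} (hκ : 0 ≤ κ * ν) (hf : ∀ x, 0 ≤ f x) (v : V → V) (x : V) :
    exc κ ν f v x ≤ stretchRate v x := by
  have h1 := mul_nonneg (hf x) (vsq_nonneg v x)
  have h2 := mul_nonneg hκ (vgrad_nonneg v x)
  unfold exc
  linarith

include hv in
/-- Means along the trajectories of an arbitrary divergence-free field. -/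
theorem prod_arcs (hdiv : ∀ x, ∑ i, pd i (fun y => v y i) x = 0) {w : V → V}
    (hw : ∀ i, SP (fun y => w y i)) (hdivw : ∀ x, ∑ i, pd i (fun y => w y i) x = 0)
    (hfm : Measurable f) (hfp : Per f) (hf0 : ∀ x, 0 ≤ f x) (hfi : IntegrableOn f cube)
    {κ ν M : ℝ} (hκ : 0 ≤ κ * ν) (hM : 0 ≤ M) {Ω : Set V} (hΩo : IsOpen Ω)
    (hΩp : ∀ (i : Fin 3) (x : V), x + Pi.single i 1 ∈ Ω ↔ x ∈ Ω)
    (h1 : ∀ᵐ x ∂(volume.restrict cube), x ∉ Ω → exc κ ν f v x ≤ M * gradSq v x)
    (h2 : ∀ᵐ x ∂(volume.restrict cube), ∀ X : ℝ → V, IsCurve w X → X 0 = x →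
      ArcsIn Ω (exc κ ν f v) X) :
    ∫ x in cube, stretchRate v x
      ≤ (∫ x in cube, f x * vsq v x) + κ * ν * palin v + M * enstrophy v := by
  obtain ⟨g, hg⟩ := exists_flow hw
  obtain ⟨C, hC0, hC⟩ := sp_bound (sp_stretchRate hv)
  have hGm := exc_meas hv hfm κ ν
  have hGi := exc_int hv hfi κ ν
  have key : ∫ x in cube, Ω.indicator (exc κ ν f v) x ≤ 0 := by
    refine erg_arcs hw hdivw hg hΩo hΩp (hGm.indicator hΩo.measurableSet)
      (exc_per hv hfp κ ν) (hGi.indicator hΩo.measurableSet) (C := C)
      (fun x _ => (exc_le hκ hf0 v x).trans ((le_abs_self _).trans (hC x))) ?_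
    filter_upwards [h2] with x hx
    exact hx (fun r => g r x) (fun r => hg.deriv x r) (hg.zero x)
  have e1 : ∫ x in cube, exc κ ν f v x = (∫ x in cube, Ω.indicator (exc κ ν f v) x)
      + ∫ x in cube, Ωᶜ.indicator (exc κ ν f v) x := by
    rw [← integral_add (hGi.indicator hΩo.measurableSet) (hGi.indicator hΩo.measurableSet.compl)]
    congr 1
    funext x
    exact (congrFun (indicator_self_add_compl Ω (exc κ ν f v)) x).symm
  have e2 : ∫ x in cube, Ωᶜ.indicator (exc κ ν f v) x ≤ ∫ x in cube, M * gradSq v x := by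
    refine integral_mono_ae (hGi.indicator hΩo.measurableSet.compl)
      ((sp_gradSq hv).int.const_mul _) ?_
    filter_upwards [h1] with x hx
    by_cases hxΩ : x ∈ Ωᶜ
    · rw [indicator_of_mem hxΩ]
      exact hx hxΩ
    · rw [indicator_of_notMem hxΩ]
      exact mul_nonneg hM (gradSq_nonneg _ _)
  rw [integral_const_mul, int_gradSq hv] at e2
  rw [exc_integral hv hdiv hfi] at e1
  linarith

theorem vabs_nonneg (v : V → V) (x : V) : 0 ≤ vabs v x := Real.sqrt_nonneg _

theorem vabs_sq (v : V → V) (x : V) : vabs v x ^ 2 = vsq v x := Real.sq_sqrt (vsq_nonneg v x)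

include hv in
theorem vabs_cont : Continuous (vabs v) := Real.continuous_sqrt.comp (sp_vsq hv).cont

include hv in
theorem vabs_per : Per (vabs v) := fun i x => by unfold vabs; rw [(sp_vsq hv).per i x]

theorem low_le {M : ℝ} (hM : 0 ≤ M) (v : V → V) (x : V) (h : vabs v x ≤ M) :
    stretchRate v x ≤ 2 * M * gradSq v x := by
  refine (le_abs_self _).trans (stretch_low hM v x ?_)
  rw [← vabs_sq]
  exact pow_le_pow_left₀ (vabs_nonneg v x) h 2

theorem stretch_vabs (v : V → V) (x : V) : |stretchRate v x| ≤ 2 * vabs v x * gradSq v x :=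
  stretch_low (vabs_nonneg v x) v x (vabs_sq v x).ge

include hv in
/-- The lengths of the arcs of the vortex lines. -/
theorem prod_len (hdiv : ∀ x, ∑ i, pd i (fun y => v y i) x = 0)
    (hfm : Measurable f) (hfp : Per f) (hf0 : ∀ x, 0 ≤ f x) (hfi : IntegrableOn f cube)
    {κ ν M : ℝ} (hκ : 0 ≤ κ * ν) (hM : 0 ≤ M)
    (h2 : ∀ lam : ℝ, M < lam → ∀ᵐ x ∂(volume.restrict cube), ∀ X : ℝ → V,
      IsCurve (vort v) X → X 0 = x →
      ArcsIn {y | lam < vabs v y} (fun y => exc κ ν f v y / vabs v y) X) :
    ∫ x in cube, stretchRate v x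
      ≤ (∫ x in cube, f x * vsq v x) + κ * ν * palin v + 2 * M * enstrophy v := by
  have hfin := cube_finite
  have hw : ∀ i, SP (fun y => vort v y i) := fun i => sp_vort hv i
  obtain ⟨g, hg⟩ := exists_flow hw
  have hGm := exc_meas hv hfm κ ν
  have hGi := exc_int hv hfi κ ν
  have hac := vabs_cont hv
  obtain ⟨C, hC0, hC⟩ := sp_bound (sp_gradSq hv)
  obtain ⟨R0, hR00, hR0⟩ := sp_bound (sp_vsq hv)
  set G : V → ℝ := fun y => exc κ ν f v y / vabs v y with hG
  have hGm' : Measurable G := hGm.div hac.measurable
  have hGp' : Per G := by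
    intro i x
    simp only [hG, exc_per hv hfp κ ν i x, vabs_per hv i x]
  -- each level
  have hlev : ∀ lam : ℝ, M < lam → ∫ x in cube, {y | lam < vabs v y}.indicator G x ≤ 0 := by
    intro lam hlam
    have hlam0 : 0 < lam := hM.trans_lt hlam
    have hΩo : IsOpen {y | lam < vabs v y} := isOpen_lt continuous_const hac
    refine erg_arcs hw (div_vort hv) hg hΩo (fun i x => ?_)
      (hGm'.indicator hΩo.measurableSet) hGp' ?_ (C := 2 * C) (fun x hx => ?_) ?_
    · simp only [mem_ofPred_eq, vabs_per hv i x]
    · refine Integrable.mono' (hGi.abs.const_mul lam⁻¹)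
        (hGm'.indicator hΩo.measurableSet).aestronglyMeasurable (ae_of_all _ fun x => ?_)
      by_cases hx : x ∈ {y | lam < vabs v y}
      · rw [indicator_of_mem hx, Real.norm_eq_abs]
        simp only [hG]
        rw [abs_div, abs_of_nonneg (vabs_nonneg v x), div_eq_inv_mul]
        have h3 : (vabs v x)⁻¹ ≤ lam⁻¹ := inv_anti₀ hlam0 (le_of_lt hx)
        exact mul_le_mul_of_nonneg_right h3 (abs_nonneg _)
      · rw [indicator_of_notMem hx, norm_zero]
        positivity
    · have hx0 : 0 < vabs v x := hlam0.trans hx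
      simp only [hG]
      rw [div_le_iff₀ hx0]
      have h3 := (le_abs_self _).trans (stretch_vabs v x)
      have h4 := (le_abs_self _).trans (hC x)
      calc exc κ ν f v x ≤ stretchRate v x := exc_le hκ hf0 v x
        _ ≤ 2 * vabs v x * gradSq v x := h3
        _ ≤ 2 * vabs v x * C := by gcongr
        _ = 2 * C * vabs v x := by ring
    · filter_upwards [h2 lam hlam] with x hx
      exact hx (fun r => g r x) (fun r => hg.deriv x r) (hg.zero x)
  -- integration over the levels
  obtain ⟨R, hR⟩ : ∃ R : ℝ, R = Real.sqrt R0 + M := ⟨_, rfl⟩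
  have hRM : M ≤ R := by rw [hR]; linarith [Real.sqrt_nonneg R0]
  have hvR : ∀ x, vabs v x ≤ R := by
    intro x
    have h3 : vabs v x ≤ Real.sqrt R0 := Real.sqrt_le_sqrt ((le_abs_self _).trans (hR0 x))
    rw [hR]
    linarith
  obtain ⟨φ, hφ⟩ : ∃ φ : V → ℝ, φ = fun x => max (vabs v x - M) 0 := ⟨_, rfl⟩
  have hφc : Continuous φ := by
    rw [hφ]
    exact (hac.sub continuous_const).max continuous_const
  have hφG : ∀ x, |φ x * G x| ≤ |exc κ ν f v x| := by
    intro x
    rw [hφ]
    simp only [hG]
    rcases eq_or_lt_of_le (vabs_nonneg v x) with h0 | h0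
    · rw [← h0, div_zero, mul_zero, abs_zero]
      exact abs_nonneg _
    · rw [abs_mul, abs_div, abs_of_pos h0, abs_of_nonneg (le_max_right _ _)]
      have h3 : max (vabs v x - M) 0 ≤ vabs v x := max_le (by linarith) h0.le
      calc max (vabs v x - M) 0 * (|exc κ ν f v x| / vabs v x)
          ≤ vabs v x * (|exc κ ν f v x| / vabs v x) := by
            gcongr
        _ = |exc κ ν f v x| := by field_simp
  have hinner : ∀ x, ∫ lam in Ioo M R, {y | lam < vabs v y}.indicator G x = φ x * G x := by
    intro x
    have e1 : ∀ lam : ℝ, {y | lam < vabs v y}.indicator G x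
        = (Iio (vabs v x)).indicator (fun _ => G x) lam := by
      intro lam
      by_cases hl : lam < vabs v x
      · rw [indicator_of_mem (show x ∈ {y | lam < vabs v y} from hl),
          indicator_of_mem (show lam ∈ Iio (vabs v x) from hl)]
      · rw [indicator_of_notMem (show x ∉ {y | lam < vabs v y} from hl),
          indicator_of_notMem (show lam ∉ Iio (vabs v x) from hl)]
    simp_rw [e1]
    rw [integral_indicator measurableSet_Iio, Measure.restrict_restrict measurableSet_Iio,
      setIntegral_const, smul_eq_mul]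
    congr 1
    have e2 : Iio (vabs v x) ∩ Ioo M R = Ioo M (vabs v x) := by
      ext l
      simp only [mem_inter_iff, mem_Iio, mem_Ioo]
      constructor
      · rintro ⟨h1, h2, _⟩
        exact ⟨h2, h1⟩
      · rintro ⟨h1, h2⟩
        exact ⟨h2, h1, h2.trans_le (hvR x)⟩
    rw [e2, hφ, Real.volume_real_Ioo]
  have hmeas : Measurable (fun q : ℝ × V => {y | q.1 < vabs v y}.indicator G q.2) := by
    have e : (fun q : ℝ × V => {y | q.1 < vabs v y}.indicator G q.2)
        = {q : ℝ × V | q.1 < vabs v q.2}.indicator (fun q => G q.2) := by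
      funext q
      rfl
    rw [e]
    exact (hGm'.comp measurable_snd).indicator
      (measurableSet_lt measurable_fst (hac.measurable.comp measurable_snd))
  have hprod : Integrable (fun q : ℝ × V => {y | q.1 < vabs v y}.indicator G q.2)
      ((volume.restrict (Ioo M R)).prod (volume.restrict cube)) := by
    have hfin2 : IsFiniteMeasure (volume.restrict (Ioo M R)) :=
      ⟨by rw [Measure.restrict_apply_univ, Real.volume_Ioo]; exact ENNReal.ofReal_lt_top⟩
    rw [integrable_prod_iff' hmeas.aestronglyMeasurable]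
    constructor
    · refine ae_of_all _ fun x => ?_
      refine Integrable.mono' (integrable_const |G x|)
        (hmeas.comp (measurable_id.prodMk measurable_const)).aestronglyMeasurable
        (ae_of_all _ fun lam => ?_)
      show ‖{y | lam < vabs v y}.indicator G x‖ ≤ |G x|
      by_cases hl : x ∈ {y | lam < vabs v y}
      · rw [indicator_of_mem hl]; exact le_rfl
      · rw [indicator_of_notMem hl, norm_zero]; exact abs_nonneg _
    · have e : ∀ x, ∫ lam in Ioo M R, ‖{y | lam < vabs v y}.indicator G x‖ = |φ x * G x| := by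
        intro x
        rcases le_total 0 (G x) with h0 | h0
        · have e3 : ∀ lam : ℝ, ‖{y | lam < vabs v y}.indicator G x‖
              = {y | lam < vabs v y}.indicator G x := by
            intro lam
            rw [Real.norm_eq_abs, abs_of_nonneg]
            by_cases hl : x ∈ {y | lam < vabs v y}
            · rw [indicator_of_mem hl]; exact h0
            · rw [indicator_of_notMem hl]
          simp_rw [e3]
          rw [hinner, abs_of_nonneg]
          rw [hφ]
          exact mul_nonneg (le_max_right _ _) h0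
        · have e3 : ∀ lam : ℝ, ‖{y | lam < vabs v y}.indicator G x‖
              = -{y | lam < vabs v y}.indicator G x := by
            intro lam
            rw [Real.norm_eq_abs, abs_of_nonpos]
            by_cases hl : x ∈ {y | lam < vabs v y}
            · rw [indicator_of_mem hl]; exact h0
            · rw [indicator_of_notMem hl]
          simp_rw [e3]
          rw [integral_neg, hinner, abs_of_nonpos]
          rw [hφ]
          exact mul_nonpos_of_nonneg_of_nonpos (le_max_right _ _) h0
      show Integrable (fun x => ∫ lam in Ioo M R, ‖{y | lam < vabs v y}.indicator G x‖)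
        (volume.restrict cube)
      simp_rw [e]
      refine Integrable.mono' hGi.abs ((hφc.measurable.mul hGm').abs).aestronglyMeasurable
        (ae_of_all _ fun x => ?_)
      rw [Real.norm_eq_abs, abs_abs]
      exact hφG x
  have hswap : ∫ x in cube, φ x * G x ≤ 0 := by
    have e1 : ∫ x in cube, φ x * G x
        = ∫ x in cube, ∫ lam in Ioo M R, {y | lam < vabs v y}.indicator G x := by
      simp_rw [hinner]
    rw [e1, ← integral_integral_swap (f := fun lam x => {y | lam < vabs v y}.indicator G x) hprod]
    exact integral_nonpos_of_ae (by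
      filter_upwards [ae_restrict_mem measurableSet_Ioo] with lam hlam
      exact hlev lam hlam.1)
  -- the bound
  have hi2 : IntegrableOn (fun x => φ x * G x) cube :=
    Integrable.mono' hGi.abs (hφc.measurable.mul hGm').aestronglyMeasurable
      (ae_of_all _ fun x => hφG x)
  have hpt : ∀ x, exc κ ν f v x ≤ φ x * G x + 2 * M * gradSq v x := by
    intro x
    have h3 := gradSq_nonneg v x
    have h4 := exc_le hκ hf0 v x
    rcases le_or_gt (vabs v x) M with h5 | h5
    · have e3 : φ x = 0 := by
        rw [hφ]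
        exact max_eq_right (by linarith)
      rw [e3, zero_mul, zero_add]
      exact h4.trans (low_le hM v x h5)
    · have h0 : 0 < vabs v x := hM.trans_lt h5
      have e3 : φ x = vabs v x - M := by
        rw [hφ]
        exact max_eq_left (by linarith)
      have e4 : exc κ ν f v x = vabs v x * G x := by
        simp only [hG]
        field_simp
      have e5 : φ x * G x = exc κ ν f v x - M * G x := by
        rw [e3, e4]
        ring
      rw [e5]
      have h6 : G x ≤ 2 * gradSq v x := by
        simp only [hG]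
        rw [div_le_iff₀ h0]
        have := (le_abs_self _).trans (stretch_vabs v x)
        linarith
      have h7 : M * G x ≤ M * (2 * gradSq v x) := mul_le_mul_of_nonneg_left h6 hM
      linarith
  have hfinal : ∫ x in cube, exc κ ν f v x
      ≤ ∫ x in cube, (φ x * G x + 2 * M * gradSq v x) :=
    integral_mono hGi (hi2.add ((sp_gradSq hv).int.const_mul _)) hpt
  rw [integral_add hi2 ((sp_gradSq hv).int.const_mul _), integral_const_mul, int_gradSq hv,
    exc_integral hv hdiv hfi] at hfinal
  linarith

end

end Pool.Agent.X6.VA
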