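import Pool.Agent.X6.VA.Prod

/-!
The variation of the vorticity along the vortex lines.
-/

open MeasureTheory Set Filter Topology
open scoped ContDiff ENNReal NNReal
open H459R3.NS Pool.Agent.W268.NS Pool.Agent.GR.Flow Pool.Agent.TH811.SPD

set_option autoImplicit false

namespace Pool.Agent.X6.VA

/-- `|(ω · ∇) ω|`, where `ω` is the curl of `v` -/
noncomputable def vvar (v : V → V) (x : V) : ℝ :=
  Real.sqrt (∑ j, (∑ i, vort v x i * pd i (fun y => vort v y j) x) ^ 2)

/-- The condition on the variation of the vorticity along the arcs of `X` in `Ω`. -/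
def VarIn (Ω : Set V) (M k : ℝ) (v : V → V) (X : ℝ → V) : Prop :=
  (∀ a b : ℝ, a < b → X a ∉ Ω → X b ∉ Ω → (∀ r ∈ Ioo a b, X r ∈ Ω) →
    2 * M + ∫ r in Ioo a b, vvar v (X r) ≤ k * ∫ r in Ioo a b, vsq v (X r)) ∧
  ((∀ r : ℝ, X r ∈ Ω) → ∀ ε : ℝ, 0 < ε → ∀ R : ℝ, ∃ τ : ℝ, R < τ ∧
    ∫ r in Ioo 0 τ, vvar v (X r) ≤ k * (∫ r in Ioo 0 τ, vsq v (X r)) + ε * τ)

section

variable {v : V → V} (hv : ∀ i, SP (fun y => v y i))

include hv in
theorem vvar_cont : Continuous (vvar v) := by
  refine Real.continuous_sqrt.comp ?_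
  refine continuous_finsetSum _ fun j _ => ?_
  refine Continuous.pow ?_ 2
  refine continuous_finsetSum _ fun i _ => ?_
  exact (sp_vort hv i).cont.mul ((sp_vort hv j).pd i).cont

theorem sum_abs_le (a b : V) {A : ℝ} (hA : 0 ≤ A) (h : ∑ i, a i ^ 2 ≤ A ^ 2) :
    |∑ i, a i * b i| ≤ A * Real.sqrt (∑ i, b i ^ 2) := by
  have h1 := Finset.sum_mul_sq_le_sq_mul_sq Finset.univ a b
  refine abs_le_of_sq_le_sq ?_ (mul_nonneg hA (Real.sqrt_nonneg _))
  rw [mul_pow, Real.sq_sqrt (Finset.sum_nonneg fun _ _ => sq_nonneg _)]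
  exact h1.trans (mul_le_mul_of_nonneg_right h (Finset.sum_nonneg fun _ _ => sq_nonneg _))

omit hv in
theorem deriv_curve {h : V → ℝ} (hh : SP h) {X : ℝ → V} (hX : IsCurve (vort v) X) (r : ℝ) :
    HasDerivAt (fun r => h (X r)) (∑ i, vort v (X r) i * pd i h (X r)) r := by
  have h1 := (hh.diff (X r)).hasFDerivAt.comp_hasDerivAt r (hX r)
  have h2 := adv_eq (vort v) h (X r)
  unfold adv at h2
  rw [h2]
  exact h1

include hv in
/-- The stretching along an arc of a vortex line. -/
theorem stretch_arc {U : ℝ} (hU0 : 0 ≤ U) (hU : ∀ x, ∑ i, v x i ^ 2 ≤ U ^ 2) {X : ℝ → V}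
    (hX : IsCurve (vort v) X) {a b : ℝ} (hab : a < b) :
    ∫ r in Ioo a b, stretchRate v (X r)
      ≤ U * (vabs v (X a) + vabs v (X b) + ∫ r in Ioo a b, vvar v (X r)) := by
  have hXc : Continuous X := continuous_iff_continuousAt.2 fun r => (hX r).continuousAt
  set Q : ℝ → ℝ := fun r => ∑ j, v (X r) j *
    ∑ i, vort v (X r) i * pd i (fun y => vort v y j) (X r) with hQ
  have hQc : Continuous Q := by
    refine continuous_finsetSum _ fun j _ => ((hv j).cont.comp hXc).mul ?_
    refine continuous_finsetSum _ fun i _ => ?_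
    exact ((sp_vort hv i).cont.comp hXc).mul ((((sp_vort hv j).pd i).cont).comp hXc)
  have hd : ∀ r, HasDerivAt (fun r => ∑ j, v (X r) j * vort v (X r) j)
      (stretchRate v (X r) + Q r) r := by
    intro r
    have h1 : ∀ j, HasDerivAt (fun r => v (X r) j * vort v (X r) j)
        ((∑ i, vort v (X r) i * pd i (fun y => v y j) (X r)) * vort v (X r) j
          + v (X r) j * ∑ i, vort v (X r) i * pd i (fun y => vort v y j) (X r)) r :=
      fun j => (deriv_curve (hv j) hX r).mul (deriv_curve (sp_vort hv j) hX r)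
    have h2 := HasDerivAt.fun_sum (u := Finset.univ) fun j _ => h1 j
    have e : stretchRate v (X r) + Q r = ∑ j,
        ((∑ i, vort v (X r) i * pd i (fun y => v y j) (X r)) * vort v (X r) j
          + v (X r) j * ∑ i, vort v (X r) i * pd i (fun y => vort v y j) (X r)) := by
      rw [Finset.sum_add_distrib]
      congr 1
      unfold stretchRate
      rw [Finset.sum_comm]
      refine Finset.sum_congr rfl fun j _ => ?_
      rw [Finset.sum_mul]
      rfl
    rw [e]
    exact h2
  have hSc : Continuous fun r => stretchRate v (X r) := (sp_stretchRate hv).cont.comp hXc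
  have h3 := intervalIntegral.integral_eq_sub_of_hasDerivAt (a := a) (b := b)
    (fun r _ => hd r) ((hSc.add hQc).intervalIntegrable _ _)
  rw [intervalIntegral.integral_add (hSc.intervalIntegrable _ _) (hQc.intervalIntegrable _ _)] at h3
  have hb : ∀ r, |∑ j, v (X r) j * vort v (X r) j| ≤ U * vabs v (X r) := fun r =>
    sum_abs_le _ _ hU0 (hU _)
  have hQb : ∀ r, |Q r| ≤ U * vvar v (X r) := fun r =>
    sum_abs_le (v (X r)) (fun j => ∑ i, vort v (X r) i * pd i (fun y => vort v y j) (X r)) hU0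
      (hU _)
  have hVc : Continuous fun r => vvar v (X r) := (vvar_cont hv).comp hXc
  have h4 : |∫ r in a..b, Q r| ≤ U * ∫ r in a..b, vvar v (X r) := by
    rw [← intervalIntegral.integral_const_mul]
    refine (intervalIntegral.abs_integral_le_integral_abs hab.le).trans ?_
    exact intervalIntegral.integral_mono_on hab.le (hQc.abs.intervalIntegrable _ _)
      ((hVc.const_mul _).intervalIntegrable _ _) fun r _ => hQb r
  rw [← integral_Ioc_eq_integral_Ioo, ← integral_Ioc_eq_integral_Ioo,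
    ← intervalIntegral.integral_of_le hab.le, ← intervalIntegral.integral_of_le hab.le]
  have h5 := hb a
  have h6 := hb b
  have h7 := abs_le.1 h4
  have h8 := abs_le.1 h5
  have h9 := abs_le.1 h6
  nlinarith

include hv in
theorem arcsIn_of_varIn {U M k : ℝ} (hU0 : 0 ≤ U) (hU : ∀ x, ∑ i, v x i ^ 2 ≤ U ^ 2)
    {X : ℝ → V} (hX : IsCurve (vort v) X)
    (h : VarIn {y | M < vabs v y} M k v X) :
    ArcsIn {y | M < vabs v y} (exc 0 0 (fun _ => U * k) v) X := by
  have hXc : Continuous X := continuous_iff_continuousAt.2 fun r => (hX r).continuousAt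
  have hSc : Continuous fun r => stretchRate v (X r) := (sp_stretchRate hv).cont.comp hXc
  have hWc : Continuous fun r => vsq v (X r) := (sp_vsq hv).cont.comp hXc
  have e : ∀ a b : ℝ, ∫ r in Ioo a b, exc 0 0 (fun _ => U * k) v (X r)
      = (∫ r in Ioo a b, stretchRate v (X r)) - U * k * ∫ r in Ioo a b, vsq v (X r) := by
    intro a b
    have i1 : IntegrableOn (fun r => stretchRate v (X r)) (Ioo a b) :=
      (hSc.integrableOn_Icc (a := a) (b := b)).mono_set Ioo_subset_Icc_self
    have i2 : IntegrableOn (fun r => vsq v (X r)) (Ioo a b) :=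
      (hWc.integrableOn_Icc (a := a) (b := b)).mono_set Ioo_subset_Icc_self
    rw [← integral_const_mul, ← integral_sub i1 (i2.const_mul _)]
    congr 1
    funext r
    unfold exc
    ring
  constructor
  · intro a b hab ha hb hr
    have h1 := h.1 a b hab ha hb hr
    have h2 := stretch_arc hv hU0 hU hX hab
    have ha' : vabs v (X a) ≤ M := not_lt.1 ha
    have hb' : vabs v (X b) ≤ M := not_lt.1 hb
    rw [e]
    have h3 : U * (vabs v (X a) + vabs v (X b) + ∫ r in Ioo a b, vvar v (X r))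
        ≤ U * (2 * M + ∫ r in Ioo a b, vvar v (X r)) := by
      refine mul_le_mul_of_nonneg_left ?_ hU0
      linarith
    have h4 : U * (2 * M + ∫ r in Ioo a b, vvar v (X r))
        ≤ U * (k * ∫ r in Ioo a b, vsq v (X r)) := mul_le_mul_of_nonneg_left h1 hU0
    linarith
  · intro hall ε hε
    obtain ⟨R0, hR00, hR0⟩ := sp_bound (sp_vsq hv)
    set B := Real.sqrt R0 with hB
    have hvB : ∀ x, vabs v x ≤ B := fun x => Real.sqrt_le_sqrt ((le_abs_self _).trans (hR0 x))
    have hB0 : 0 ≤ B := Real.sqrt_nonneg _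
    obtain ⟨τ, hτ, h1⟩ := h.2 hall (ε / (2 * (U + 1))) (by positivity) (4 * U * B / ε)
    have hτ0 : 0 < τ := lt_of_le_of_lt (by positivity) hτ
    refine ⟨τ, hτ0, ?_⟩
    have h2 := stretch_arc hv hU0 hU hX hτ0
    rw [e]
    have h3 : U * (vabs v (X 0) + vabs v (X τ) + ∫ r in Ioo 0 τ, vvar v (X r))
        ≤ U * (2 * B + (k * (∫ r in Ioo 0 τ, vsq v (X r)) + ε / (2 * (U + 1)) * τ)) := by
      refine mul_le_mul_of_nonneg_left ?_ hU0
      have := hvB (X 0)
      have := hvB (X τ)
      linarith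
    have h4 : 4 * U * B < τ * ε := (div_lt_iff₀ hε).1 hτ
    have h5 : U * (ε / (2 * (U + 1)) * τ) ≤ ε * τ / 2 := by
      have h6 : U / (U + 1) ≤ 1 := by
        rw [div_le_one (by positivity)]
        linarith
      calc U * (ε / (2 * (U + 1)) * τ) = U / (U + 1) * (ε * τ / 2) := by
            field_simp
        _ ≤ 1 * (ε * τ / 2) := mul_le_mul_of_nonneg_right h6 (by positivity)
        _ = ε * τ / 2 := one_mul _
    linarith

end

end Pool.Agent.X6.VA
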